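import Pool.Agent.H303.DS.Ext
import Pool.Graph.R_seed8.W585.Param
import Pool.Graph.R_seed8.TH340.FF.Form3

/-!
A potential of a divergence free field near the third axis.
-/

set_option autoImplicit false
set_option linter.unusedSectionVars false

open MeasureTheory Set Filter Topology
open scoped InnerProductSpace ContDiff

namespace Pool.Agent.H303.RS

open H772R2.NS
open Pool.Agent.TH340.FF (jac_eq_coord)

/-- the square of the distance from the axis -/
noncomputable def rr (x : E3) : ℝ := x 0 ^ 2 + x 1 ^ 2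

theorem rr_nonneg (x : E3) : 0 ≤ rr x := by unfold rr; positivity

theorem rr_smooth : ContDiff ℝ ∞ rr := by
  unfold rr
  fun_prop

/-- the point `(t x₀, t x₁, x₂)` -/
noncomputable def Pt (t : ℝ) (x : E3) : E3 := WithLp.toLp 2 ![t * x 0, t * x 1, x 2]

theorem Pt_0 (t : ℝ) (x : E3) : Pt t x 0 = t * x 0 := rfl
theorem Pt_1 (t : ℝ) (x : E3) : Pt t x 1 = t * x 1 := rfl
theorem Pt_2 (t : ℝ) (x : E3) : Pt t x 2 = x 2 := rfl

theorem Pt_one (x : E3) : Pt 1 x = x := by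
  ext i
  fin_cases i
  · show Pt 1 x 0 = x 0
    rw [Pt_0, one_mul]
  · show Pt 1 x 1 = x 1
    rw [Pt_1, one_mul]
  · rfl

/-- as a continuous linear map -/
noncomputable def PtL (t : ℝ) : E3 →L[ℝ] E3 :=
  LinearMap.toContinuousLinearMap
    { toFun := Pt t
      map_add' := fun x y => by
        ext i
        fin_cases i
        · show Pt t (x + y) 0 = Pt t x 0 + Pt t y 0
          simp only [Pt_0, PiLp.add_apply]; ring
        · show Pt t (x + y) 1 = Pt t x 1 + Pt t y 1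
          simp only [Pt_1, PiLp.add_apply]; ring
        · rfl
      map_smul' := fun c x => by
        ext i
        fin_cases i
        · show Pt t (c • x) 0 = c * Pt t x 0
          simp only [Pt_0, PiLp.smul_apply, smul_eq_mul]; ring
        · show Pt t (c • x) 1 = c * Pt t x 1
          simp only [Pt_1, PiLp.smul_apply, smul_eq_mul]; ring
        · rfl }

theorem PtL_apply (t : ℝ) (x : E3) : PtL t x = Pt t x := rfl

theorem Pt_smooth : ContDiff ℝ ∞ (fun p : E3 × ℝ => Pt p.2 p.1) := by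
  have h : ∀ j : Fin 3, ContDiff ℝ ∞ (fun p : E3 × ℝ => p.1 j) := fun j =>
    (EuclideanSpace.proj (𝕜 := ℝ) j : E3 →L[ℝ] ℝ).contDiff.comp contDiff_fst
  rw [contDiff_euclidean]
  intro i
  fin_cases i
  · show ContDiff ℝ ∞ (fun p : E3 × ℝ => p.2 * p.1 0)
    exact contDiff_snd.mul (h 0)
  · show ContDiff ℝ ∞ (fun p : E3 × ℝ => p.2 * p.1 1)
    exact contDiff_snd.mul (h 1)
  · show ContDiff ℝ ∞ (fun p : E3 × ℝ => p.1 2)
    exact h 2

variable {φ : E3 → E3}

/-- the weights -/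
noncomputable def wt (k : Fin 3) (t : ℝ) : ℝ := ![1, 1, t] k

theorem wt_smooth (k : Fin 3) : ContDiff ℝ ∞ (wt k) := by
  fin_cases k
  · show ContDiff ℝ ∞ fun _ : ℝ => (1 : ℝ)
    exact contDiff_const
  · show ContDiff ℝ ∞ fun _ : ℝ => (1 : ℝ)
    exact contDiff_const
  · show ContDiff ℝ ∞ fun t : ℝ => t
    exact contDiff_id

/-- the integrand -/
noncomputable def fk (φ : E3 → E3) (k : Fin 3) (x : E3) (t : ℝ) : ℝ := wt k t * φ (Pt t x) k

theorem fk_smooth (h : ContDiff ℝ ∞ φ) (k : Fin 3) :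
    ContDiff ℝ ∞ (fun p : E3 × ℝ => fk φ k p.1 p.2) := by
  unfold fk
  exact ((wt_smooth k).comp contDiff_snd).mul ((contDiff_coord h k).comp Pt_smooth)

/-- the coefficients of the potential -/
noncomputable def ak (φ : E3 → E3) (k : Fin 3) (x : E3) : ℝ := ∫ t in (0 : ℝ)..1, fk φ k x t

theorem ak_smooth (h : ContDiff ℝ ∞ φ) (k : Fin 3) : ContDiff ℝ ∞ (ak φ k) :=
  Pool.Agent.W585.contDiff_param (fk_smooth h k) 0 1

/-- the matrix -/
noncomputable def Mk (i k : Fin 3) (x : E3) : ℝ :=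
  ![![x 1 ^ 2, -(x 0 * x 1), 0], ![-(x 0 * x 1), x 0 ^ 2, 0], ![0, 0, rr x]] i k

theorem Mk_smooth (i k : Fin 3) : ContDiff ℝ ∞ (Mk i k) := by
  have h0 : ContDiff ℝ ∞ fun x : E3 => x 0 := (EuclideanSpace.proj (𝕜 := ℝ) 0 : E3 →L[ℝ] ℝ).contDiff
  have h1 : ContDiff ℝ ∞ fun x : E3 => x 1 := (EuclideanSpace.proj (𝕜 := ℝ) 1 : E3 →L[ℝ] ℝ).contDiff
  fin_cases i <;> fin_cases k
  · exact h1.pow 2
  · exact (h0.mul h1).neg
  · exact contDiff_const
  · exact (h0.mul h1).neg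
  · exact h0.pow 2
  · exact contDiff_const
  · exact contDiff_const
  · exact contDiff_const
  · exact rr_smooth

/-- the integrand of `Bf` -/
noncomputable def bf (φ : E3 → E3) (i : Fin 3) (x : E3) (t : ℝ) : ℝ := ∑ k, Mk i k x * fk φ k x t

theorem bf_smooth (h : ContDiff ℝ ∞ φ) (i : Fin 3) :
    ContDiff ℝ ∞ (fun p : E3 × ℝ => bf φ i p.1 p.2) :=
  ContDiff.sum fun k _ => ((Mk_smooth i k).comp contDiff_fst).mul (fk_smooth h k)

/-- the vector product of `(x₀, x₁, 0)` and the potential -/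
noncomputable def Bf (φ : E3 → E3) (i : Fin 3) (x : E3) : ℝ := ∑ k, Mk i k x * ak φ k x

theorem cont_t {f : E3 → ℝ → ℝ} (h : ContDiff ℝ ∞ (fun p : E3 × ℝ => f p.1 p.2)) (x : E3) :
    Continuous (f x) := h.continuous.comp (continuous_const.prodMk continuous_id)

theorem Bf_eq (h : ContDiff ℝ ∞ φ) (i : Fin 3) (x : E3) :
    Bf φ i x = ∫ t in (0 : ℝ)..1, bf φ i x t := by
  unfold Bf bf ak
  rw [intervalIntegral.integral_finsetSum fun k _ =>
    ((cont_t (fk_smooth h k) x).const_mul _).intervalIntegrable _ _]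
  refine Finset.sum_congr rfl fun k _ => ?_
  rw [intervalIntegral.integral_const_mul]

theorem ld {f : E3 → ℝ} {D : ℝ} {x v : E3} (hf : DifferentiableAt ℝ f x)
    (h : HasDerivAt (fun s : ℝ => f (x + s • v)) D 0) : fderiv ℝ f x v = D :=
  (hf.hasFDerivAt.hasLineDerivAt v).unique h

theorem dcoord (x v : E3) (j : Fin 3) : HasDerivAt (fun s : ℝ => (x + s • v) j) (v j) 0 := by
  have h : HasDerivAt (fun s : ℝ => x j + s * v j) (1 * v j) 0 :=
    ((hasDerivAt_id (0 : ℝ)).mul_const (v j)).const_add (x j)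
  rw [one_mul] at h
  exact h

theorem dfun {f : E3 → ℝ} (hf : ContDiff ℝ ∞ f) (x v : E3) :
    HasDerivAt (fun s : ℝ => f (x + s • v)) (fderiv ℝ f x v) 0 :=
  ((hf.differentiable (by simp)) x).hasFDerivAt.hasLineDerivAt v

theorem dphi (h : ContDiff ℝ ∞ φ) (t : ℝ) (x v : E3) (k : Fin 3) :
    HasDerivAt (fun s : ℝ => φ (Pt t (x + s • v)) k)
      (fderiv ℝ (fun y => φ y k) (Pt t x) (Pt t v)) 0 := by
  have h1 := dfun (contDiff_coord h k) (Pt t x) (Pt t v)
  refine h1.congr_of_eventuallyEq (Eventually.of_forall fun s => ?_)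
  show φ (Pt t (x + s • v)) k = φ (Pt t x + s • Pt t v) k
  rw [← PtL_apply, ← PtL_apply, ← PtL_apply, map_add, map_smul]

theorem sum3 (f : Fin 3 → ℝ) : ∑ i, f i = f 0 + f 1 + f 2 := Fin.sum_univ_three f

theorem bf0 (x : E3) (t : ℝ) :
    bf φ 0 x t = x 1 ^ 2 * φ (Pt t x) 0 - x 0 * x 1 * φ (Pt t x) 1 := by
  unfold bf
  rw [sum3]
  show x 1 ^ 2 * (1 * φ (Pt t x) 0) + -(x 0 * x 1) * (1 * φ (Pt t x) 1)
    + 0 * (t * φ (Pt t x) 2) = _
  ring

theorem bf1 (x : E3) (t : ℝ) :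
    bf φ 1 x t = x 0 ^ 2 * φ (Pt t x) 1 - x 0 * x 1 * φ (Pt t x) 0 := by
  unfold bf
  rw [sum3]
  show -(x 0 * x 1) * (1 * φ (Pt t x) 0) + x 0 ^ 2 * (1 * φ (Pt t x) 1)
    + 0 * (t * φ (Pt t x) 2) = _
  ring

theorem bf2 (x : E3) (t : ℝ) :
    bf φ 2 x t = (x 0 ^ 2 + x 1 ^ 2) * (t * φ (Pt t x) 2) := by
  unfold bf
  rw [sum3]
  show 0 * (1 * φ (Pt t x) 0) + 0 * (1 * φ (Pt t x) 1)
    + rr x * (t * φ (Pt t x) 2) = _
  unfold rr
  ring

theorem Pt_ev (t : ℝ) : Pt t (ev 0) = t • ev 0 ∧ Pt t (ev 1) = t • ev 1 ∧ Pt t (ev 2) = ev 2 := by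
  refine ⟨?_, ?_, ?_⟩ <;>
  · ext i
    fin_cases i <;> simp [Pt]

theorem bf_diff (h : ContDiff ℝ ∞ φ) (i : Fin 3) (t : ℝ) (x : E3) :
    DifferentiableAt ℝ (fun y => bf φ i y t) x := by
  have h1 : ContDiff ℝ ∞ (fun y : E3 => bf φ i y t) :=
    (bf_smooth h i).comp (contDiff_id.prodMk contDiff_const)
  exact (h1.differentiable (by simp)) x

theorem div_bf (h : ContDiff ℝ ∞ φ) (hd : ∀ x, ∑ j, jac φ x (j, j) = 0) (t : ℝ) (x : E3) :
    HasDerivAt (fun t => -(t * (x 0 * φ (Pt t x) 0 + x 1 * φ (Pt t x) 1)))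
      (∑ i, fderiv ℝ (fun y => bf φ i y t) x (ev i)) t := by
  set J : Fin 3 → Fin 3 → ℝ := fun k j => fderiv ℝ (fun y => φ y k) (Pt t x) (ev j) with hJ
  have e0 := (Pt_ev t).1
  have e1 := (Pt_ev t).2.1
  have e2 := (Pt_ev t).2.2
  have v00 : (ev 0 : E3) 0 = 1 := by simp
  have v01 : (ev 0 : E3) 1 = 0 := by simp
  have v10 : (ev 1 : E3) 0 = 0 := by simp
  have v11 : (ev 1 : E3) 1 = 1 := by simp
  have v20 : (ev 2 : E3) 0 = 0 := by simp
  have v21 : (ev 2 : E3) 1 = 0 := by simp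
  have hz : x + (0 : ℝ) • (ev 0 : E3) = x := by simp
  have hz1 : x + (0 : ℝ) • (ev 1 : E3) = x := by simp
  have hz2 : x + (0 : ℝ) • (ev 2 : E3) = x := by simp
  have d0 : fderiv ℝ (fun y => bf φ 0 y t) x (ev 0)
      = x 1 ^ 2 * (t * J 0 0) - (x 1 * φ (Pt t x) 1 + x 0 * x 1 * (t * J 1 0)) := by
    refine ld (bf_diff h 0 t x) ?_
    simp only [bf0]
    have k1 := ((dcoord x (ev 0) 1).fun_pow 2).fun_mul (dphi h t x (ev 0) 0)
    have k2 := ((dcoord x (ev 0) 0).fun_mul (dcoord x (ev 0) 1)).fun_mul (dphi h t x (ev 0) 1)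
    refine (k1.fun_sub k2).congr_deriv ?_
    rw [hz, e0, map_smul, map_smul, v00, v01]
    simp only [smul_eq_mul, hJ]
    push_cast
    ring
  have d1 : fderiv ℝ (fun y => bf φ 1 y t) x (ev 1)
      = x 0 ^ 2 * (t * J 1 1) - (x 0 * φ (Pt t x) 0 + x 0 * x 1 * (t * J 0 1)) := by
    refine ld (bf_diff h 1 t x) ?_
    simp only [bf1]
    have k1 := ((dcoord x (ev 1) 0).fun_pow 2).fun_mul (dphi h t x (ev 1) 1)
    have k2 := ((dcoord x (ev 1) 0).fun_mul (dcoord x (ev 1) 1)).fun_mul (dphi h t x (ev 1) 0)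
    refine (k1.fun_sub k2).congr_deriv ?_
    rw [hz1, e1, map_smul, map_smul, v10, v11]
    simp only [smul_eq_mul, hJ]
    push_cast
    ring
  have d2 : fderiv ℝ (fun y => bf φ 2 y t) x (ev 2) = (x 0 ^ 2 + x 1 ^ 2) * (t * J 2 2) := by
    refine ld (bf_diff h 2 t x) ?_
    simp only [bf2]
    have k1 := (((dcoord x (ev 2) 0).fun_pow 2).fun_add ((dcoord x (ev 2) 1).fun_pow 2)).fun_mul
      ((dphi h t x (ev 2) 2).const_mul t)
    refine k1.congr_deriv ?_
    rw [hz2, e2, v20, v21]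
    simp only [hJ]
    push_cast
    ring
  have hdiv : J 0 0 + J 1 1 + J 2 2 = 0 := by
    have := hd (Pt t x)
    rw [sum3, jac_eq_coord h, jac_eq_coord h, jac_eq_coord h] at this
    exact this
  -- the derivative in `t`
  have hP : ∀ k, HasDerivAt (fun t => φ (Pt t x) k) (x 0 * J k 0 + x 1 * J k 1) t := by
    intro k
    have hv : ∀ s : ℝ, Pt s x = Pt t x + (s - t) • (x 0 • ev 0 + x 1 • ev 1 : E3) := by
      intro s
      ext i
      fin_cases i
      · show s * x 0 = t * x 0 + (s - t) * (x 0 * (ev 0 : E3) 0 + x 1 * (ev 1 : E3) 0)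
        rw [v00, v10]; ring
      · show s * x 1 = t * x 1 + (s - t) * (x 0 * (ev 0 : E3) 1 + x 1 * (ev 1 : E3) 1)
        rw [v01, v11]; ring
      · show x 2 = x 2 + (s - t) * (x 0 * (ev 0 : E3) 2 + x 1 * (ev 1 : E3) 2)
        simp
    have h1 := dfun (contDiff_coord h k) (Pt t x) (x 0 • ev 0 + x 1 • ev 1 : E3)
    have h2 : HasDerivAt (fun s : ℝ => s - t) 1 t := (hasDerivAt_id t).sub_const t
    have h3 : HasDerivAt (fun s : ℝ => φ (Pt t x + s • (x 0 • ev 0 + x 1 • ev 1 : E3)) k)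
        (fderiv ℝ (fun y => φ y k) (Pt t x) (x 0 • ev 0 + x 1 • ev 1 : E3)) (t - t) := by
      rw [sub_self]
      exact h1
    have h4 := HasDerivAt.comp (h := fun s : ℝ => s - t) t h3 h2
    refine (h4.congr_of_eventuallyEq (Eventually.of_forall fun s => ?_)).congr_deriv ?_
    · show φ (Pt s x) k = φ (Pt t x + (s - t) • (x 0 • ev 0 + x 1 • ev 1 : E3)) k
      rw [hv s]
    · rw [map_add, map_smul, map_smul]
      simp only [smul_eq_mul, hJ]
      ring
  have k3 := (((hasDerivAt_id' t).fun_mul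
    (((hP 0).const_mul (x 0)).fun_add ((hP 1).const_mul (x 1)))).fun_neg)
  refine k3.congr_deriv ?_
  rw [sum3, d0, d1, d2]
  have : J 2 2 = -J 0 0 - J 1 1 := by linarith
  rw [this]
  ring

/-- The divergence of `Bf`. -/
theorem div_Bf (h : ContDiff ℝ ∞ φ) (hd : ∀ x, ∑ j, jac φ x (j, j) = 0) (x : E3) :
    ∑ i, fderiv ℝ (Bf φ i) x (ev i) = -(x 0 * φ x 0 + x 1 * φ x 1) := by
  have e1 : ∀ i, Bf φ i = fun x => ∫ t in (0 : ℝ)..1, bf φ i x t := fun i => by
    funext y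
    exact Bf_eq h i y
  have e2 : ∀ i, fderiv ℝ (Bf φ i) x (ev i)
      = ∫ t in (0 : ℝ)..1, fderiv ℝ (fun y => bf φ i y t) x (ev i) := by
    intro i
    rw [e1 i]
    exact Pool.Agent.W585.fderiv_param_apply ((bf_smooth h i).of_le (by exact_mod_cast le_top)) 0 1
      x (ev i)
  have hc : ∀ i, Continuous fun t => fderiv ℝ (fun y => bf φ i y t) x (ev i) := fun i =>
    (Pool.Agent.W585.continuous_fderiv_param
      ((bf_smooth h i).of_le (by exact_mod_cast le_top)) x).clm_apply continuous_const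
  simp_rw [e2]
  rw [← intervalIntegral.integral_finsetSum fun i _ => (hc i).intervalIntegrable _ _]
  rw [intervalIntegral.integral_eq_sub_of_hasDerivAt (fun t _ => div_bf h hd t x)
    ((continuous_finsetSum _ fun i _ => hc i).intervalIntegrable _ _)]
  rw [Pt_one]
  ring

end Pool.Agent.H303.RS
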