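import Pool.Agent.H303.RS.Axis1

/-!
Cutting off a divergence free field near the third axis.
-/

set_option autoImplicit false
set_option linter.unusedSectionVars false

open MeasureTheory Set Filter Topology
open scoped InnerProductSpace ContDiff

namespace Pool.Agent.H303.RS

open H772R2.NS
open Pool.Agent.TH340.FF (jac_eq_coord)

/-- the cutoff function -/
noncomputable def hh (s : ℝ) : ℝ := Real.smoothTransition ((s - 1) / 3)

theorem hh_smooth : ContDiff ℝ ∞ hh :=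
  Real.smoothTransition.contDiff.comp ((contDiff_id.sub contDiff_const).div_const 3)

theorem hh_zero {s : ℝ} (h : s ≤ 1) : hh s = 0 :=
  Real.smoothTransition.zero_of_nonpos (by linarith)

theorem hh_one {s : ℝ} (h : 4 ≤ s) : hh s = 1 :=
  Real.smoothTransition.one_of_one_le (by linarith)

/-- its derivative -/
noncomputable def h1 : ℝ → ℝ := deriv hh

theorem h1_smooth : ContDiff ℝ ∞ h1 := by
  have h := hh_smooth
  rw [show (∞ : WithTop ℕ∞) = ((⊤ : ℕ∞) : WithTop ℕ∞) from rfl] at *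
  exact (contDiff_infty_iff_deriv.1 h).2

theorem hh_deriv (s : ℝ) : HasDerivAt hh (h1 s) s :=
  ((hh_smooth.differentiable (by simp)) s).hasDerivAt

theorem h1_deriv (s : ℝ) : HasDerivAt h1 (deriv h1 s) s :=
  ((h1_smooth.differentiable (by simp)) s).hasDerivAt

theorem h1_zero {s : ℝ} (h : s < 1) : h1 s = 0 := by
  have : hh =ᶠ[𝓝 s] fun _ => 0 := by
    filter_upwards [gt_mem_nhds h] with x hx
    exact hh_zero hx.le
  unfold h1
  rw [this.deriv_eq]
  simp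

theorem h1_zero' {s : ℝ} (h : 4 < s) : h1 s = 0 := by
  have : hh =ᶠ[𝓝 s] fun _ => 1 := by
    filter_upwards [lt_mem_nhds h] with x hx
    exact hh_one hx.le
  unfold h1
  rw [this.deriv_eq]
  simp

/-- coefficient functions in the scaled variable -/
structure HG (G : E3 → ℝ) : Prop where
  smooth : ContDiff ℝ ∞ G
  inv : ∀ y (s : ℝ), G (y + s • ev 2) = G y
  supp : ∀ y, 4 < rr y → G y = 0

theorem rr_shift (y : E3) (s : ℝ) : rr (y + s • ev 2) = rr y := by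
  unfold rr
  simp

theorem Mk_shift (i k : Fin 3) (y : E3) (s : ℝ) : Mk i k (y + s • ev 2) = Mk i k y := by
  have h0 : (y + s • ev 2) 0 = y 0 := by simp
  have h1 : (y + s • ev 2) 1 = y 1 := by simp
  unfold Mk
  rw [rr_shift, h0, h1]

theorem rr_open (a : ℝ) : IsOpen {y : E3 | a < rr y} :=
  isOpen_lt continuous_const rr_smooth.continuous

theorem HG.loc {G : E3 → ℝ} (h : HG G) {y : E3} (hy : 4 < rr y) : G =ᶠ[𝓝 y] fun _ => 0 := by
  filter_upwards [(rr_open 4).mem_nhds hy] with x hx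
  exact h.supp x hx

theorem HG.bdd {G : E3 → ℝ} (h : HG G) :
    ∃ C : ℝ, 0 ≤ C ∧ ∀ y, |G y| ≤ C ∧ ‖fderiv ℝ G y‖ ≤ C := by
  have hK : IsCompact (Metric.closedBall (0 : E3) 2) := isCompact_closedBall _ _
  obtain ⟨C1, hC1⟩ := hK.exists_bound_of_continuousOn h.smooth.continuous.continuousOn
  obtain ⟨C2, hC2⟩ := hK.exists_bound_of_continuousOn
    (h.smooth.continuous_fderiv (by simp)).continuousOn
  have h0 : (0 : E3) ∈ Metric.closedBall (0 : E3) 2 := by simp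
  have hC10 : 0 ≤ C1 := (norm_nonneg _).trans (hC1 0 h0)
  have hC20 : 0 ≤ C2 := (norm_nonneg _).trans (hC2 0 h0)
  refine ⟨C1 + C2, by positivity, fun y => ?_⟩
  rcases lt_or_ge 4 (rr y) with hy | hy
  · rw [h.supp y hy, (h.loc hy).fderiv_eq]
    simp only [abs_zero, fderiv_fun_const, Pi.zero_apply, norm_zero]
    exact ⟨by positivity, by positivity⟩
  · set y' : E3 := y + (-(y 2)) • ev 2 with hy'
    have e1 : G y' = G y := h.inv y _
    have e2 : fderiv ℝ G y' = fderiv ℝ G y := by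
      have : (fun x => G (x + (-(y 2)) • ev 2)) = G := by
        funext x
        exact h.inv x _
      have h3 := fderiv_comp_add_right (𝕜 := ℝ) (f := G) (x := y) ((-(y 2)) • ev 2 : E3)
      rw [this] at h3
      exact h3.symm
    have hm : y' ∈ Metric.closedBall (0 : E3) 2 := by
      rw [mem_closedBall_zero_iff]
      have h4 : ‖y'‖ ^ 2 ≤ 2 ^ 2 := by
        rw [norm_sq_E3, Fin.sum_univ_three]
        have a0 : y' 0 = y 0 := by simp [hy']
        have a1 : y' 1 = y 1 := by simp [hy']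
        have a2 : y' 2 = 0 := by simp [hy']
        rw [a0, a1, a2]
        unfold rr at hy
        linarith
      exact le_of_sq_le_sq h4 (by norm_num) 
    have h5 := hC1 y' hm
    have h6 := hC2 y' hm
    rw [e1, Real.norm_eq_abs] at h5
    rw [e2] at h6
    exact ⟨by linarith, by linarith⟩

/-- the coefficients -/
noncomputable def G0 (y : E3) : ℝ := hh (rr y) - 1

noncomputable def NN (i k : Fin 3) (y : E3) : ℝ := 2 * h1 (rr y) * Mk i k y

theorem G0_HG : HG G0 where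
  smooth := (hh_smooth.comp rr_smooth).sub contDiff_const
  inv := fun y s => by unfold G0; rw [rr_shift]
  supp := fun y hy => by unfold G0; rw [hh_one hy.le, sub_self]

theorem NN_HG (i k : Fin 3) : HG (NN i k) where
  smooth := (contDiff_const.mul (h1_smooth.comp rr_smooth)).mul (Mk_smooth i k)
  inv := fun y s => by unfold NN; rw [rr_shift, Mk_shift]
  supp := fun y hy => by unfold NN; rw [h1_zero' hy]; ring

theorem rr_smul (c : ℝ) (x : E3) : rr (c • x) = c ^ 2 * rr x := by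
  unfold rr
  simp only [PiLp.smul_apply, smul_eq_mul]
  ring

theorem Mk_smul (c : ℝ) (i k : Fin 3) (x : E3) : Mk i k (c • x) = c ^ 2 * Mk i k x := by
  unfold Mk
  rw [rr_smul]
  fin_cases i <;> fin_cases k <;>
    simp [PiLp.smul_apply, smul_eq_mul] <;> ring

/-- one term -/
theorem term_bd {G f : E3 → ℝ} (hG : HG G) (hf : ContDiff ℝ ∞ f) {C K ε : ℝ} (hε : 0 < ε)
    (hC0 : 0 ≤ C) (hC : ∀ y, |G y| ≤ C ∧ ‖fderiv ℝ G y‖ ≤ C) {x : E3} (h1 : |f x| ≤ K)
    (h2 : ‖fderiv ℝ f x‖ ≤ K) :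
    |G (ε⁻¹ • x) * f x| ≤ C * K ∧
    (∀ v, |fderiv ℝ (fun y => G (ε⁻¹ • y) * f y) x v| ≤ (1 + ε⁻¹) * (C * K) * ‖v‖) ∧
    (4 * ε ^ 2 < rr x → G (ε⁻¹ • x) * f x = 0 ∧
      fderiv ℝ (fun y => G (ε⁻¹ • y) * f y) x = 0) := by
  have hK : 0 ≤ K := (abs_nonneg _).trans h1
  have hGs : ContDiff ℝ ∞ fun y : E3 => G (ε⁻¹ • y) := hG.smooth.comp (contDiff_const_smul ε⁻¹)
  have hGd : DifferentiableAt ℝ (fun y : E3 => G (ε⁻¹ • y)) x := (hGs.differentiable (by simp)) x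
  have hfd : DifferentiableAt ℝ f x := (hf.differentiable (by simp)) x
  have e1 : ∀ v, fderiv ℝ (fun y : E3 => G (ε⁻¹ • y)) x v = ε⁻¹ * fderiv ℝ G (ε⁻¹ • x) v := by
    intro v
    rw [fderiv_comp_smul]
    rfl
  have hi : 0 < ε⁻¹ := inv_pos.2 hε
  refine ⟨?_, fun v => ?_, fun hx => ?_⟩
  · rw [abs_mul]
    exact mul_le_mul (hC _).1 h1 (abs_nonneg _) hC0
  · rw [fderiv_fun_mul hGd hfd]
    show |G (ε⁻¹ • x) * fderiv ℝ f x v + f x * fderiv ℝ (fun y : E3 => G (ε⁻¹ • y)) x v| ≤ _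
    rw [e1]
    refine (abs_add_le _ _).trans ?_
    rw [abs_mul, abs_mul, abs_mul, abs_of_pos hi]
    have a1 : |fderiv ℝ f x v| ≤ K * ‖v‖ := by
      refine ((fderiv ℝ f x).le_opNorm v).trans ?_
      gcongr
    have a2 : |fderiv ℝ G (ε⁻¹ • x) v| ≤ C * ‖v‖ := by
      refine ((fderiv ℝ G (ε⁻¹ • x)).le_opNorm v).trans ?_
      have := (hC (ε⁻¹ • x)).2
      gcongr
    have a3 : |G (ε⁻¹ • x)| * |fderiv ℝ f x v| ≤ C * (K * ‖v‖) :=
      mul_le_mul (hC _).1 a1 (abs_nonneg _) hC0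
    have a4 : |f x| * (ε⁻¹ * |fderiv ℝ G (ε⁻¹ • x) v|) ≤ K * (ε⁻¹ * (C * ‖v‖)) := by
      gcongr
    calc _ ≤ C * (K * ‖v‖) + K * (ε⁻¹ * (C * ‖v‖)) := add_le_add a3 a4
      _ = (1 + ε⁻¹) * (C * K) * ‖v‖ := by ring
  · have hx' : 4 < rr (ε⁻¹ • x) := by
      rw [rr_smul, inv_pow, inv_mul_eq_div, lt_div_iff₀ (by positivity)]
      exact hx
    have e2 : G (ε⁻¹ • x) = 0 := hG.supp _ hx'
    refine ⟨by rw [e2, zero_mul], ?_⟩
    have h3 : (fun y => G (ε⁻¹ • y) * f y) =ᶠ[𝓝 x] fun _ => 0 := by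
      filter_upwards [(rr_open (4 * ε ^ 2)).mem_nhds hx] with y hy
      have : 4 < rr (ε⁻¹ • y) := by
        rw [rr_smul, inv_pow, inv_mul_eq_div, lt_div_iff₀ (by positivity)]
        exact hy
      rw [hG.supp _ this, zero_mul]
    rw [h3.fderiv_eq]
    simp

variable {φ : E3 → E3}

/-- the difference of the cut off field and the field, by components -/
noncomputable def ps (φ : E3 → E3) (ε : ℝ) (i : Fin 3) (x : E3) : ℝ :=
  G0 (ε⁻¹ • x) * φ x i + ∑ k, NN i k (ε⁻¹ • x) * ak φ k x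

/-- the cut off field -/
noncomputable def pe (φ : E3 → E3) (ε : ℝ) (x : E3) : E3 :=
  WithLp.toLp 2 fun i => φ x i + ps φ ε i x

theorem pe_apply (φ : E3 → E3) (ε : ℝ) (x : E3) (i : Fin 3) : pe φ ε x i = φ x i + ps φ ε i x := rfl

theorem ps_smooth (h : ContDiff ℝ ∞ φ) (ε : ℝ) (i : Fin 3) : ContDiff ℝ ∞ (ps φ ε i) := by
  unfold ps
  refine ((G0_HG.smooth.comp (contDiff_const_smul ε⁻¹)).mul (contDiff_coord h i)).add ?_
  exact ContDiff.sum fun k _ =>
    ((NN_HG i k).smooth.comp (contDiff_const_smul ε⁻¹)).mul (ak_smooth h k)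

theorem pe_smooth (h : ContDiff ℝ ∞ φ) (ε : ℝ) : ContDiff ℝ ∞ (pe φ ε) := by
  rw [contDiff_euclidean]
  intro i
  exact (contDiff_coord h i).add (ps_smooth h ε i)

theorem pe_eq (φ : E3 → E3) {ε : ℝ} (x : E3) (i : Fin 3) :
    pe φ ε x i = hh ((ε⁻¹) ^ 2 * rr x) * φ x i
      + 2 * (ε⁻¹) ^ 2 * (h1 ((ε⁻¹) ^ 2 * rr x) * Bf φ i x) := by
  rw [pe_apply]
  unfold ps G0 NN Bf
  simp only [rr_smul, Mk_smul, Finset.mul_sum]
  have : ∀ k, 2 * h1 (ε⁻¹ ^ 2 * rr x) * (ε⁻¹ ^ 2 * Mk i k x) * ak φ k x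
      = 2 * ε⁻¹ ^ 2 * (h1 (ε⁻¹ ^ 2 * rr x) * (Mk i k x * ak φ k x)) := fun k => by ring
  simp only [this]
  ring

theorem drr (x v : E3) : HasDerivAt (fun s : ℝ => rr (x + s • v))
    (2 * (x 0 * v 0 + x 1 * v 1)) 0 := by
  unfold rr
  refine (((dcoord x v 0).fun_pow 2).fun_add ((dcoord x v 1).fun_pow 2)).congr_deriv ?_
  have : x + (0 : ℝ) • v = x := by simp
  rw [this]
  push_cast
  ring

theorem B01 (φ : E3 → E3) (x : E3) : x 0 * Bf φ 0 x + x 1 * Bf φ 1 x = 0 := by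
  unfold Bf
  rw [sum3, sum3]
  show x 0 * (x 1 ^ 2 * ak φ 0 x + -(x 0 * x 1) * ak φ 1 x + 0 * ak φ 2 x)
    + x 1 * (-(x 0 * x 1) * ak φ 0 x + x 0 ^ 2 * ak φ 1 x + 0 * ak φ 2 x) = 0
  ring

theorem pe_div (h : ContDiff ℝ ∞ φ) (hd : ∀ x, ∑ j, jac φ x (j, j) = 0) (ε : ℝ) (x : E3) :
    ∑ j, jac (pe φ ε) x (j, j) = 0 := by
  set c : ℝ := (ε⁻¹) ^ 2 with hc
  have hz : ∀ v : E3, x + (0 : ℝ) • v = x := fun v => by simp
  have hBs : ∀ i, ContDiff ℝ ∞ (Bf φ i) := fun i =>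
    ContDiff.sum fun k _ => (Mk_smooth i k).mul (ak_smooth h k)
  have key : ∀ j, jac (pe φ ε) x (j, j)
      = h1 (c * rr x) * (c * (2 * (x 0 * (ev j : E3) 0 + x 1 * (ev j : E3) 1))) * φ x j
        + hh (c * rr x) * jac φ x (j, j)
        + 2 * c * (deriv h1 (c * rr x) * (c * (2 * (x 0 * (ev j : E3) 0 + x 1 * (ev j : E3) 1)))
            * Bf φ j x
          + h1 (c * rr x) * fderiv ℝ (Bf φ j) x (ev j)) := by
    intro j
    rw [jac_eq_coord (pe_smooth h ε), jac_eq_coord h]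
    refine ld (((contDiff_coord (pe_smooth h ε) j).differentiable (by simp)) x) ?_
    simp only [pe_eq]
    have k0 : HasDerivAt (fun s : ℝ => c * rr (x + s • ev j))
      (c * (2 * (x 0 * (ev j : E3) 0 + x 1 * (ev j : E3) 1))) 0 := (drr x (ev j)).const_mul c
    have k1 : HasDerivAt (fun s : ℝ => hh (c * rr (x + s • ev j)))
        (h1 (c * rr x) * (c * (2 * (x 0 * (ev j : E3) 0 + x 1 * (ev j : E3) 1)))) 0 := by
      have a := hh_deriv (c * rr (x + (0 : ℝ) • ev j))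
      have b := HasDerivAt.comp (h := fun s : ℝ => c * rr (x + s • ev j)) (0 : ℝ) a k0
      rw [hz] at b
      exact b
    have k2 : HasDerivAt (fun s : ℝ => h1 (c * rr (x + s • ev j)))
        (deriv h1 (c * rr x) * (c * (2 * (x 0 * (ev j : E3) 0 + x 1 * (ev j : E3) 1)))) 0 := by
      have a := h1_deriv (c * rr (x + (0 : ℝ) • ev j))
      have b := HasDerivAt.comp (h := fun s : ℝ => c * rr (x + s • ev j)) (0 : ℝ) a k0
      rw [hz] at b
      exact b
    have k3 := dfun (contDiff_coord h j) x (ev j)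
    have k4 := dfun (hBs j) x (ev j)
    refine ((k1.fun_mul k3).fun_add ((k2.fun_mul k4).const_mul (2 * c))).congr_deriv ?_
    rw [hz]
  have hd' : jac φ x (2, 2) = -jac φ x (0, 0) - jac φ x (1, 1) := by
    have := hd x
    rw [sum3] at this
    linarith
  have hB := div_Bf h hd x
  rw [sum3] at hB
  have hB2 : fderiv ℝ (Bf φ 2) x (ev 2) = -(x 0 * φ x 0 + x 1 * φ x 1)
    - fderiv ℝ (Bf φ 0) x (ev 0) - fderiv ℝ (Bf φ 1) x (ev 1) := by linarith
  have hB01 := B01 φ x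
  rw [sum3, key, key, key, hd', hB2]
  have v00 : (ev 0 : E3) 0 = 1 := by simp
  have v01 : (ev 0 : E3) 1 = 0 := by simp
  have v10 : (ev 1 : E3) 0 = 0 := by simp
  have v11 : (ev 1 : E3) 1 = 1 := by simp
  have v20 : (ev 2 : E3) 0 = 0 := by simp
  have v21 : (ev 2 : E3) 1 = 0 := by simp
  rw [v00, v01, v10, v11, v20, v21]
  linear_combination 4 * c ^ 2 * deriv h1 (c * rr x) * hB01

end Pool.Agent.H303.RS
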