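import Pool.Agent.H303.RS.Axis2
import Pool.Graph.R_seed8.Y303.NF.Pub

/-!
The fields which vanish near the third axis are dense.
-/

set_option autoImplicit false
set_option linter.unusedSectionVars false

open MeasureTheory Set Filter Topology
open scoped InnerProductSpace ContDiff ENNReal

namespace Pool.Agent.H303.RS

open H772R2.NS H772R2.NSR
open Pool.Agent.TH340.FF (jac_eq_coord)
open Pool.Agent.H303.DS

/-- the points of `Ω` at distance more than `δ` from the axis -/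
def Oc (Ω : Set E3) (δ : ℝ) : Set E3 := {x | x ∈ Ω ∧ δ ^ 2 < rr x}

theorem Oc_open {Ω : Set E3} (hΩ : IsOpen Ω) (δ : ℝ) : IsOpen (Oc Ω δ) := hΩ.inter (rr_open _)

theorem Oc_sub (Ω : Set E3) (δ : ℝ) : Oc Ω δ ⊆ Ω := fun _ h => h.1

theorem Oc_mono (Ω : Set E3) {δ δ' : ℝ} (h0 : 0 ≤ δ) (h : δ ≤ δ') : Oc Ω δ' ⊆ Oc Ω δ := fun x hx =>
  ⟨hx.1, lt_of_le_of_lt (by gcongr) hx.2⟩

variable {φ : E3 → E3} {Ω : Set E3}

theorem dist_Pt {t : ℝ} (h0 : 0 ≤ t) (h1 : t ≤ 1) {x : E3} {ε : ℝ} (hε : 0 ≤ ε)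
    (hx : rr x ≤ 4 * ε ^ 2) : dist x (Pt t x) ≤ 2 * ε := by
  rw [dist_eq_norm]
  have h2 : ‖x - Pt t x‖ ^ 2 = (1 - t) ^ 2 * rr x := by
    rw [norm_sq_E3, sum3]
    have a0 : (x - Pt t x) 0 = x 0 - t * x 0 := rfl
    have a1 : (x - Pt t x) 1 = x 1 - t * x 1 := rfl
    have a2 : (x - Pt t x) 2 = x 2 - x 2 := rfl
    rw [a0, a1, a2]
    unfold rr
    ring
  have h3 : ‖x - Pt t x‖ ^ 2 ≤ (2 * ε) ^ 2 := by
    rw [h2]
    have h4 : (1 - t) ^ 2 ≤ 1 := by nlinarith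
    have h5 := rr_nonneg x
    calc (1 - t) ^ 2 * rr x ≤ 1 * rr x := by gcongr
      _ ≤ (2 * ε) ^ 2 := by linarith
  exact le_of_sq_le_sq h3 (by positivity)

theorem pe_zero {ε : ℝ} (hε : 0 < ε) {x : E3}
    (hx : ¬ (ε ^ 2 ≤ rr x ∧ x ∈ Metric.cthickening (2 * ε) (tsupport φ))) : pe φ ε x = 0 := by
  have hi : 0 < (ε⁻¹) ^ 2 := by positivity
  have hee : (ε⁻¹) ^ 2 * ε ^ 2 = 1 := by
    rw [← mul_pow, inv_mul_cancel₀ hε.ne', one_pow]
  refine PiLp.ext fun i => ?_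
  rw [pe_eq]
  show _ = (0 : ℝ)
  by_cases h1' : ε ^ 2 ≤ rr x
  · have h2 : x ∉ Metric.cthickening (2 * ε) (tsupport φ) := fun h => hx ⟨h1', h⟩
    have h3 : φ x = 0 := image_eq_zero_of_notMem_tsupport fun h =>
      h2 (Metric.self_subset_cthickening _ h)
    have h4 : φ x i = 0 := by rw [h3]; rfl
    rw [h4]
    rcases lt_or_ge (4 * ε ^ 2) (rr x) with h5 | h5
    · rw [h1_zero' (by
        calc (4 : ℝ) = (ε⁻¹) ^ 2 * (4 * ε ^ 2) := by linear_combination -4 * hee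
          _ < (ε⁻¹) ^ 2 * rr x := by gcongr)]
      ring
    · have h6 : ∀ k, ak φ k x = 0 := by
        intro k
        unfold ak
        have : ∫ t in (0 : ℝ)..1, fk φ k x t = ∫ t in (0 : ℝ)..1, (0 : ℝ) := by
          refine intervalIntegral.integral_congr fun t ht => ?_
          rw [uIcc_of_le zero_le_one] at ht
          have h7 : φ (Pt t x) = 0 := image_eq_zero_of_notMem_tsupport fun h =>
            h2 (Metric.mem_cthickening_of_dist_le x _ _ _ h (dist_Pt ht.1 ht.2 hε.le h5))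
          show wt k t * φ (Pt t x) k = 0
          rw [h7]
          simp
        rw [this]
        simp
      unfold Bf
      simp [h6]
  · have h2 : (ε⁻¹) ^ 2 * rr x < 1 := by
      calc (ε⁻¹) ^ 2 * rr x < (ε⁻¹) ^ 2 * ε ^ 2 := by
            have := not_le.1 h1'
            gcongr
        _ = 1 := hee
    rw [hh_zero h2.le, h1_zero h2]
    ring

theorem pe_test (hφ : IsTest Ω φ) {ε : ℝ} (hε : 0 < ε)
    (hsub : Metric.cthickening (2 * ε) (tsupport φ) ⊆ Ω) : IsTest (Oc Ω (ε / 2)) (pe φ ε) where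
  smooth := pe_smooth hφ.smooth ε
  compact := HasCompactSupport.intro (hφ.compact.isCompact.cthickening (r := 2 * ε)) fun x hx =>
    pe_zero hε fun h => hx h.2
  supp := by
    have hcl : IsClosed {x : E3 | ε ^ 2 ≤ rr x ∧ x ∈ Metric.cthickening (2 * ε) (tsupport φ)} :=
      (isClosed_le continuous_const rr_smooth.continuous).inter Metric.isClosed_cthickening
    have h1 : tsupport (pe φ ε) ⊆
        {x : E3 | ε ^ 2 ≤ rr x ∧ x ∈ Metric.cthickening (2 * ε) (tsupport φ)} := by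
      refine closure_minimal (fun x hx => ?_) hcl
      by_contra hcon
      exact hx (pe_zero hε hcon)
    intro x hx
    have h2 := h1 hx
    refine ⟨hsub h2.2, lt_of_lt_of_le ?_ h2.1⟩
    have : (ε / 2) ^ 2 = ε ^ 2 / 4 := by ring
    rw [this]
    have : 0 < ε ^ 2 := by positivity
    linarith
  divfree := pe_div hφ.smooth hφ.divfree ε

/-- uniform bounds of the coefficients -/
theorem coef_bd : ∃ C : ℝ, 0 ≤ C ∧ (∀ y, |G0 y| ≤ C ∧ ‖fderiv ℝ G0 y‖ ≤ C) ∧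
    ∀ i k y, |NN i k y| ≤ C ∧ ‖fderiv ℝ (NN i k) y‖ ≤ C := by
  obtain ⟨C0, hC00, hC0⟩ := G0_HG.bdd
  choose C1 hC10 hC1 using fun i k => (NN_HG i k).bdd
  have h1 : 0 ≤ ∑ i, ∑ k, C1 i k := Finset.sum_nonneg fun i _ => Finset.sum_nonneg fun k _ => hC10 i k
  have h2 : ∀ i k, C1 i k ≤ ∑ i, ∑ k, C1 i k := fun i k =>
    (Finset.single_le_sum (f := fun k => C1 i k) (fun k _ => hC10 i k) (Finset.mem_univ k)).trans
      (Finset.single_le_sum (f := fun i => ∑ k, C1 i k)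
        (fun i _ => Finset.sum_nonneg fun k _ => hC10 i k) (Finset.mem_univ i))
  refine ⟨C0 + ∑ i, ∑ k, C1 i k, by positivity, fun y => ?_, fun i k y => ?_⟩
  · have := hC0 y
    exact ⟨by linarith, by linarith⟩
  · have := hC1 i k y
    have := h2 i k
    exact ⟨by linarith, by linarith⟩

theorem fun_bd {f : E3 → ℝ} (hf : ContDiff ℝ ∞ f) (M : ℝ) : ∃ K : ℝ, 0 ≤ K ∧
    ∀ x ∈ Metric.closedBall (0 : E3) M, |f x| ≤ K ∧ ‖fderiv ℝ f x‖ ≤ K := by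
  have hK : IsCompact (Metric.closedBall (0 : E3) M) := isCompact_closedBall _ _
  obtain ⟨C1, hC1⟩ := hK.exists_bound_of_continuousOn hf.continuous.continuousOn
  obtain ⟨C2, hC2⟩ := hK.exists_bound_of_continuousOn (hf.continuous_fderiv (by simp)).continuousOn
  refine ⟨|C1| + |C2|, by positivity, fun x hx => ?_⟩
  have h1 := hC1 x hx
  have h2 := hC2 x hx
  rw [Real.norm_eq_abs] at h1
  have := le_abs_self C1
  have := le_abs_self C2
  have := abs_nonneg C1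
  have := abs_nonneg C2
  exact ⟨by linarith, by linarith⟩

theorem data_bd (h : ContDiff ℝ ∞ φ) (M : ℝ) : ∃ K : ℝ, 0 ≤ K ∧
    ∀ x ∈ Metric.closedBall (0 : E3) M,
      (∀ i : Fin 3, |φ x i| ≤ K ∧ ‖fderiv ℝ (fun y => φ y i) x‖ ≤ K) ∧
      ∀ k, |ak φ k x| ≤ K ∧ ‖fderiv ℝ (ak φ k) x‖ ≤ K := by
  choose C0 hC00 hC0 using fun i : Fin 3 => fun_bd (contDiff_coord h i) M
  choose C1 hC10 hC1 using fun k : Fin 3 => fun_bd (ak_smooth h k) M
  have h0 : 0 ≤ ∑ i, C0 i := Finset.sum_nonneg fun i _ => hC00 i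
  have h1 : 0 ≤ ∑ i, C1 i := Finset.sum_nonneg fun i _ => hC10 i
  have h2 : ∀ i, C0 i ≤ ∑ i, C0 i := fun i =>
    Finset.single_le_sum (fun i _ => hC00 i) (Finset.mem_univ i)
  have h3 : ∀ i, C1 i ≤ ∑ i, C1 i := fun i =>
    Finset.single_le_sum (fun i _ => hC10 i) (Finset.mem_univ i)
  refine ⟨(∑ i, C0 i) + ∑ i, C1 i, by positivity, fun x hx => ⟨fun i => ?_, fun k => ?_⟩⟩
  · have := hC0 i x hx
    have := h2 i
    exact ⟨by linarith, by linarith⟩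
  · have := hC1 k x hx
    have := h3 k
    exact ⟨by linarith, by linarith⟩

theorem ps_bd (h : ContDiff ℝ ∞ φ) {C K ε : ℝ} (hε : 0 < ε) (hC0 : 0 ≤ C)
    (hC : (∀ y, |G0 y| ≤ C ∧ ‖fderiv ℝ G0 y‖ ≤ C) ∧
      ∀ i k y, |NN i k y| ≤ C ∧ ‖fderiv ℝ (NN i k) y‖ ≤ C) {x : E3}
    (hK : (∀ i : Fin 3, |φ x i| ≤ K ∧ ‖fderiv ℝ (fun y => φ y i) x‖ ≤ K) ∧
      ∀ k, |ak φ k x| ≤ K ∧ ‖fderiv ℝ (ak φ k) x‖ ≤ K) (i : Fin 3) :
    |ps φ ε i x| ≤ 4 * (C * K) ∧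
    (∀ v, |fderiv ℝ (ps φ ε i) x v| ≤ 4 * ((1 + ε⁻¹) * (C * K) * ‖v‖)) ∧
    (4 * ε ^ 2 < rr x → ps φ ε i x = 0 ∧ fderiv ℝ (ps φ ε i) x = 0) := by
  have t0 := term_bd G0_HG (contDiff_coord h i) hε hC0 hC.1 (hK.1 i).1 (hK.1 i).2
  have t1 := fun k => term_bd (NN_HG i k) (ak_smooth h k) hε hC0 (hC.2 i k) (hK.2 k).1 (hK.2 k).2
  have d0 : DifferentiableAt ℝ (fun y => G0 (ε⁻¹ • y) * φ y i) x :=
    (((G0_HG.smooth.comp (contDiff_const_smul ε⁻¹)).mul (contDiff_coord h i)).differentiable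
      (by simp)) x
  have d1 : ∀ k, DifferentiableAt ℝ (fun y => NN i k (ε⁻¹ • y) * ak φ k y) x := fun k =>
    ((((NN_HG i k).smooth.comp (contDiff_const_smul ε⁻¹)).mul (ak_smooth h k)).differentiable
      (by simp)) x
  have e1 : fderiv ℝ (ps φ ε i) x = fderiv ℝ (fun y => G0 (ε⁻¹ • y) * φ y i) x
      + ∑ k, fderiv ℝ (fun y => NN i k (ε⁻¹ • y) * ak φ k y) x := by
    unfold ps
    rw [fderiv_fun_add d0 (DifferentiableAt.fun_sum fun k _ => d1 k), fderiv_fun_sum fun k _ => d1 k]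
  refine ⟨?_, fun v => ?_, fun hx => ⟨?_, ?_⟩⟩
  · unfold ps
    rw [sum3]
    have a := abs_add_le (G0 (ε⁻¹ • x) * φ x i) (NN i 0 (ε⁻¹ • x) * ak φ 0 x
      + NN i 1 (ε⁻¹ • x) * ak φ 1 x + NN i 2 (ε⁻¹ • x) * ak φ 2 x)
    have b := abs_add_three (NN i 0 (ε⁻¹ • x) * ak φ 0 x) (NN i 1 (ε⁻¹ • x) * ak φ 1 x)
      (NN i 2 (ε⁻¹ • x) * ak φ 2 x)
    have := t0.1
    have := (t1 0).1
    have := (t1 1).1
    have := (t1 2).1
    linarith
  · rw [e1, Fin.sum_univ_three]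
    show |fderiv ℝ (fun y => G0 (ε⁻¹ • y) * φ y i) x v
      + (fderiv ℝ (fun y => NN i 0 (ε⁻¹ • y) * ak φ 0 y) x v
      + fderiv ℝ (fun y => NN i 1 (ε⁻¹ • y) * ak φ 1 y) x v
      + fderiv ℝ (fun y => NN i 2 (ε⁻¹ • y) * ak φ 2 y) x v)| ≤ _
    have a := abs_add_le (fderiv ℝ (fun y => G0 (ε⁻¹ • y) * φ y i) x v)
      (fderiv ℝ (fun y => NN i 0 (ε⁻¹ • y) * ak φ 0 y) x v
      + fderiv ℝ (fun y => NN i 1 (ε⁻¹ • y) * ak φ 1 y) x v
      + fderiv ℝ (fun y => NN i 2 (ε⁻¹ • y) * ak φ 2 y) x v)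
    have b := abs_add_three (fderiv ℝ (fun y => NN i 0 (ε⁻¹ • y) * ak φ 0 y) x v)
      (fderiv ℝ (fun y => NN i 1 (ε⁻¹ • y) * ak φ 1 y) x v)
      (fderiv ℝ (fun y => NN i 2 (ε⁻¹ • y) * ak φ 2 y) x v)
    have := t0.2.1 v
    have := (t1 0).2.1 v
    have := (t1 1).2.1 v
    have := (t1 2).2.1 v
    linarith
  · unfold ps
    rw [(t0.2.2 hx).1, Finset.sum_eq_zero fun k _ => ((t1 k).2.2 hx).1, add_zero]
  · rw [e1, (t0.2.2 hx).2, Finset.sum_eq_zero fun k _ => ((t1 k).2.2 hx).2, add_zero]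

end Pool.Agent.H303.RS
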