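import Pool.Agent.H303.RS.Axis3

/-!
The fields which vanish near the third axis are dense: the limit.
-/

set_option autoImplicit false
set_option linter.unusedSectionVars false

open MeasureTheory Set Filter Topology
open scoped InnerProductSpace ContDiff ENNReal

namespace Pool.Agent.H303.RS

open H772R2.NS H772R2.NSR
open Pool.Agent.TH340.FF (jac_eq_coord)
open Pool.Agent.H303.DS

variable {φ : E3 → E3} {Ω : Set E3}

/-- the half side lengths of the box -/
noncomputable def bx (ε M : ℝ) : Fin 3 → ℝ := ![2 * ε, 2 * ε, M]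

theorem vol_tube {M ε : ℝ} (hε : 0 < ε) (hM : 0 < M) (hΩM : Ω ⊆ Metric.closedBall (0 : E3) M) :
    ((volume : Measure E3).restrict Ω) {x | rr x ≤ 4 * ε ^ 2} ≤ ENNReal.ofReal (32 * M * ε ^ 2) := by
  have hcl : IsClosed {x : E3 | rr x ≤ 4 * ε ^ 2} := isClosed_le rr_smooth.continuous continuous_const
  rw [Measure.restrict_apply hcl.measurableSet]
  have hsub : {x : E3 | rr x ≤ 4 * ε ^ 2} ∩ Ω ⊆ (@WithLp.ofLp 2 (Fin 3 → ℝ)) ⁻¹'
      (Icc (-(bx ε M)) (bx ε M)) := by
    rintro x ⟨hx, hxΩ⟩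
    have h1 : x 0 ^ 2 + x 1 ^ 2 ≤ (2 * ε) ^ 2 := by
      have : rr x ≤ 4 * ε ^ 2 := hx
      unfold rr at this
      linarith
    have h2 : ‖x‖ ≤ M := by
      have := hΩM hxΩ
      rwa [mem_closedBall_zero_iff] at this
    have h3 : |x 0| ≤ 2 * ε := abs_le_of_sq_le_sq (by nlinarith [sq_nonneg (x 1)]) (by positivity)
    have h4 : |x 1| ≤ 2 * ε := abs_le_of_sq_le_sq (by nlinarith [sq_nonneg (x 0)]) (by positivity)
    have h5 : |x 2| ≤ M := by
      have h6 : ‖x 2‖ ≤ ‖x‖ := PiLp.norm_apply_le x 2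
      rw [Real.norm_eq_abs] at h6
      exact h6.trans h2
    rw [abs_le] at h3 h4 h5
    refine ⟨fun i => ?_, fun i => ?_⟩
    · fin_cases i
      · exact h3.1
      · exact h4.1
      · exact h5.1
    · fin_cases i
      · exact h3.2
      · exact h4.2
      · exact h5.2
  refine (measure_mono hsub).trans ?_
  rw [(PiLp.volume_preserving_ofLp (Fin 3)).measure_preimage measurableSet_Icc.nullMeasurableSet,
    Real.volume_Icc_pi, Fin.prod_univ_three]
  show ENNReal.ofReal (2 * ε - -(2 * ε)) * ENNReal.ofReal (2 * ε - -(2 * ε))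
    * ENNReal.ofReal (M - -M) ≤ _
  rw [← ENNReal.ofReal_mul (by linarith), ← ENNReal.ofReal_mul (by nlinarith)]
  refine ENNReal.ofReal_le_ofReal (le_of_eq ?_)
  ring

theorem norm_le_of {E : Type} [NormedAddCommGroup E] [InnerProductSpace ℝ E] {μ : Measure E3}
    {f : Lp E 2 μ} {S : Set E3} (hS : MeasurableSet S) {A B : ℝ} (hA : 0 ≤ A) (hB : 0 ≤ B)
    (hμ : μ S ≤ ENNReal.ofReal B) (h1 : ∀ᵐ x ∂μ, ‖f x‖ ≤ A) (h2 : ∀ᵐ x ∂μ, x ∉ S → f x = 0) :
    ‖f‖ ^ 2 ≤ A ^ 2 * B := by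
  have hfin : μ S < ⊤ := hμ.trans_lt ENNReal.ofReal_lt_top
  have e1 : ‖f‖ ^ 2 = ∫ x, ‖f x‖ ^ 2 ∂μ := by
    rw [← real_inner_self_eq_norm_sq, L2.inner_def]
    refine integral_congr_ae (Eventually.of_forall fun x => ?_)
    exact real_inner_self_eq_norm_sq _
  have hi : Integrable (fun x => ‖f x‖ ^ 2) μ :=
    (memLp_two_iff_integrable_sq_norm (Lp.aestronglyMeasurable f)).mp (Lp.memLp f)
  have hj : Integrable (S.indicator fun _ => A ^ 2) μ :=
    (integrable_indicator_iff hS).2 (integrableOn_const hfin.ne)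
  rw [e1]
  have h3 : ∫ x, ‖f x‖ ^ 2 ∂μ ≤ ∫ x, S.indicator (fun _ => A ^ 2) x ∂μ := by
    refine integral_mono_ae hi hj ?_
    filter_upwards [h1, h2] with x k1 k2
    by_cases hx : x ∈ S
    · rw [indicator_of_mem hx]
      gcongr
    · rw [indicator_of_notMem hx, k2 hx]
      simp
  refine h3.trans ?_
  rw [integral_indicator hS, setIntegral_const, smul_eq_mul, mul_comm]
  have h4 : μ.real S ≤ B := ENNReal.toReal_le_of_le_ofReal hB hμ
  gcongr

theorem pair_of_test (D : Set E3) (h : IsTest Ω φ) : ∃ p : L2V D × L2M D, p ∈ preV D Ω ∧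
    p.1 =ᵐ[volume.restrict D] φ ∧ p.2 =ᵐ[volume.restrict D] jac φ := by
  have h1 := (h.memLp 2).restrict D
  have h2 := (h.jac_memLp 2).restrict D
  exact ⟨(h1.toLp _, h2.toLp _), ⟨φ, h, h1.coeFn_toLp, h2.coeFn_toLp⟩, h1.coeFn_toLp,
    h2.coeFn_toLp⟩

/-- The estimates for one cut off field. -/
theorem pe_est (hΩ : IsOpen Ω) (hb : Bornology.IsBounded Ω) (hφ : IsTest Ω φ)
    {p : L2V Ω × L2M Ω} (hp1 : p.1 =ᵐ[volume.restrict Ω] φ)
    (hp2 : p.2 =ᵐ[volume.restrict Ω] jac φ) :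
    ∃ A δ : ℝ, 0 ≤ A ∧ 0 < δ ∧ ∀ ε : ℝ, 0 < ε → ε ≤ δ → ∃ q ∈ extW Ω (Oc Ω (ε / 2)),
      ‖q.1 - p.1‖ ^ 2 ≤ A * ε ^ 2 ∧ ‖q.2 - p.2‖ ^ 2 ≤ A := by
  obtain ⟨δ, hδ, hcth⟩ := hφ.compact.isCompact.exists_cthickening_subset_open hΩ hφ.supp
  obtain ⟨M0, hM0⟩ := hb.subset_closedBall (0 : E3)
  set M : ℝ := max M0 1 with hM
  have hM1 : 0 < M := lt_of_lt_of_le one_pos (le_max_right _ _)
  have hΩM : Ω ⊆ Metric.closedBall (0 : E3) M :=
    hM0.trans (Metric.closedBall_subset_closedBall (le_max_left _ _))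
  obtain ⟨C, hC0, hC⟩ := coef_bd
  obtain ⟨K, hK0, hK⟩ := data_bd hφ.smooth M
  set A1 : ℝ := (12 * (C * K)) ^ 2 * (32 * M) with hA1
  set A2 : ℝ := (72 * (C * K)) ^ 2 * (32 * M) with hA2
  refine ⟨A1 + A2, min (δ / 2) 1, by positivity, by positivity, fun ε hε hεδ => ?_⟩
  have hε1 : ε ≤ 1 := hεδ.trans (min_le_right _ _)
  have hε2 : 2 * ε ≤ δ := by
    have := hεδ.trans (min_le_left _ _)
    linarith
  have htest := pe_test hφ hε ((Metric.cthickening_mono hε2 _).trans hcth)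
  obtain ⟨q, hq0, hq1, hq2⟩ := pair_of_test Ω htest
  have hS : MeasurableSet {x : E3 | rr x ≤ 4 * ε ^ 2} :=
    (isClosed_le rr_smooth.continuous continuous_const).measurableSet
  have hvol := vol_tube hε hM1 hΩM
  have hmem : ∀ᵐ x ∂((volume : Measure E3).restrict Ω), x ∈ Ω := ae_restrict_mem hΩ.measurableSet
  refine ⟨q, Submodule.le_topologicalClosure _ hq0, ?_, ?_⟩
  · have h1 := norm_le_of (f := q.1 - p.1) hS (A := 12 * (C * K)) (B := 32 * M * ε ^ 2)
      (by positivity) (by positivity) hvol (by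
        filter_upwards [Lp.coeFn_sub q.1 p.1, hq1, hp1, hmem] with x k1 k2 k3 k4
        have hb := fun i => (ps_bd hφ.smooth hε hC0 hC (hK x (hΩM k4)) i).1
        rw [k1, Pi.sub_apply, k2, k3]
        have e1 : ∀ i : Fin 3, (pe φ ε x - φ x) i = ps φ ε i x := fun i => by
          rw [PiLp.sub_apply, pe_apply]; ring
        have h2 : ‖pe φ ε x - φ x‖ ^ 2 ≤ (12 * (C * K)) ^ 2 := by
          rw [norm_sq_E3, sum3, e1, e1, e1]
          have h3 : ∀ i, ps φ ε i x ^ 2 ≤ (4 * (C * K)) ^ 2 := fun i => by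
            rw [← sq_abs]
            have := hb i
            gcongr
          have a0 := h3 0
          have a1 := h3 1
          have a2 := h3 2
          nlinarith [sq_nonneg (C * K)]
        exact le_of_sq_le_sq h2 (by positivity)) (by
        filter_upwards [Lp.coeFn_sub q.1 p.1, hq1, hp1, hmem] with x k1 k2 k3 k4 hxS
        have hx : 4 * ε ^ 2 < rr x := not_le.1 hxS
        rw [k1, Pi.sub_apply, k2, k3]
        refine PiLp.ext fun i => ?_
        rw [PiLp.sub_apply, pe_apply, ((ps_bd hφ.smooth hε hC0 hC (hK x (hΩM k4)) i).2.2 hx).1]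
        show _ = (0 : ℝ)
        ring)
    refine h1.trans ?_
    have : 0 ≤ A2 * ε ^ 2 := by positivity
    have e : (12 * (C * K)) ^ 2 * (32 * M * ε ^ 2) = A1 * ε ^ 2 := by rw [hA1]; ring
    rw [e, add_mul]
    linarith
  · have hi : 0 < ε⁻¹ := inv_pos.2 hε
    have hi1 : 1 ≤ ε⁻¹ := (one_le_inv₀ hε).2 hε1
    have hent : ∀ x ∈ Ω, ∀ i j : Fin 3, (jac (pe φ ε) x - jac φ x) (i, j)
        = fderiv ℝ (ps φ ε i) x (ev j) := by
      intro x _ i j
      rw [PiLp.sub_apply, jac_eq_coord (pe_smooth hφ.smooth ε), jac_eq_coord hφ.smooth]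
      have d1 : DifferentiableAt ℝ (fun y => φ y i) x :=
        ((contDiff_coord hφ.smooth i).differentiable (by simp)) x
      have d2 : DifferentiableAt ℝ (ps φ ε i) x := ((ps_smooth hφ.smooth ε i).differentiable
        (by simp)) x
      have e2 : fderiv ℝ (fun y => pe φ ε y i) x = fderiv ℝ (fun y => φ y i) x
          + fderiv ℝ (ps φ ε i) x := by
        have : (fun y => pe φ ε y i) = fun y => φ y i + ps φ ε i y := rfl
        rw [this]
        exact fderiv_fun_add d1 d2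
      rw [e2]
      show fderiv ℝ (fun y => φ y i) x (ev j) + fderiv ℝ (ps φ ε i) x (ev j) - _ = _
      ring
    have h1 := norm_le_of (f := q.2 - p.2) hS (A := 72 * (C * K) * ε⁻¹) (B := 32 * M * ε ^ 2)
      (by positivity) (by positivity) hvol (by
        filter_upwards [Lp.coeFn_sub q.2 p.2, hq2, hp2, hmem] with x k1 k2 k3 k4
        rw [k1, Pi.sub_apply, k2, k3]
        have hb : ∀ i j, |fderiv ℝ (ps φ ε i) x (ev j)| ≤ 8 * (C * K) * ε⁻¹ := by
          intro i j
          have h5 := (ps_bd hφ.smooth hε hC0 hC (hK x (hΩM k4)) i).2.1 (ev j)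
          have hn : ‖(ev j : E3)‖ = 1 := by simp
          rw [hn, mul_one] at h5
          refine h5.trans ?_
          have : (1 + ε⁻¹) * (C * K) ≤ (ε⁻¹ + ε⁻¹) * (C * K) := by gcongr
          linarith
        have h2 : ‖jac (pe φ ε) x - jac φ x‖ ^ 2 ≤ (72 * (C * K) * ε⁻¹) ^ 2 := by
          rw [norm_sq_M3]
          calc ∑ i, ∑ j, (jac (pe φ ε) x - jac φ x) (i, j) ^ 2
              ≤ ∑ _i : Fin 3, ∑ _j : Fin 3, (8 * (C * K) * ε⁻¹) ^ 2 := by
                refine Finset.sum_le_sum fun i _ => Finset.sum_le_sum fun j _ => ?_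
                rw [hent x k4 i j, ← sq_abs]
                have := hb i j
                gcongr
            _ ≤ (72 * (C * K) * ε⁻¹) ^ 2 := by
                simp only [Finset.sum_const, Finset.card_univ, Fintype.card_fin, nsmul_eq_mul]
                push_cast
                nlinarith [sq_nonneg (C * K * ε⁻¹)]
        exact le_of_sq_le_sq h2 (by positivity)) (by
        filter_upwards [Lp.coeFn_sub q.2 p.2, hq2, hp2, hmem] with x k1 k2 k3 k4 hxS
        have hx : 4 * ε ^ 2 < rr x := not_le.1 hxS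
        rw [k1, Pi.sub_apply, k2, k3]
        refine PiLp.ext fun ij => ?_
        obtain ⟨i, j⟩ := ij
        rw [hent x k4 i j, ((ps_bd hφ.smooth hε hC0 hC (hK x (hΩM k4)) i).2.2 hx).2]
        rfl)
    refine h1.trans ?_
    have e : (72 * (C * K) * ε⁻¹) ^ 2 * (32 * M * ε ^ 2) = A2 := by
      rw [hA2]
      field_simp
    rw [e]
    have : 0 ≤ A1 := by positivity
    linarith

/-- **The fields which vanish near the axis are dense.** -/
theorem axis_dense (hΩ : IsOpen Ω) (hb : Bornology.IsBounded Ω) {p : L2V Ω × L2M Ω}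
    (hp : p ∈ graphW Ω) {η : ℝ} (hη : 0 < η) :
    ∃ δ : ℝ, 0 < δ ∧ ∃ q ∈ extW Ω (Oc Ω δ), ‖q - p‖ < η := by
  obtain ⟨C, Fr⟩ := exists_frame hΩ hb
  set S : ℕ → Submodule ℝ (L2V Ω × L2M Ω) := fun n => extW Ω (Oc Ω (1 / ((n : ℝ) + 1))) with hS
  have hdir : Directed (· ≤ ·) S := by
    refine Monotone.directed_le fun a b hab => extW_mono (Oc_mono Ω (by positivity) ?_)
    have : (a : ℝ) ≤ b := by exact_mod_cast hab
    exact one_div_le_one_div_of_le (by positivity) (by linarith)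
  set M : Submodule ℝ (L2V Ω × L2M Ω) := (⨆ n, S n).topologicalClosure with hMdef
  have hMcl : IsClosed (M : Set (L2V Ω × L2M Ω)) := Submodule.isClosed_topologicalClosure _
  have hSM : ∀ δ : ℝ, 0 < δ → extW Ω (Oc Ω δ) ≤ M := by
    intro δ hδ
    obtain ⟨n, hn⟩ := exists_nat_one_div_lt hδ
    exact (extW_mono (Oc_mono Ω (by positivity) hn.le)).trans
      ((le_iSup S n).trans (Submodule.le_topologicalClosure _))
  have hMle : M ≤ graphW Ω := by
    refine Submodule.topologicalClosure_minimal _ (iSup_le fun n => extW_le (Oc_sub _ _)) ?_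
    exact graphW_closed Ω
  have hpM : p ∈ M := by
    have h0 : graphW Ω ≤ M := by
      unfold graphW
      refine Submodule.topologicalClosure_minimal _ ?_ hMcl
      rintro r ⟨φ, h1, h2, h3⟩
      obtain ⟨A, δ, hA, hδ, hq⟩ := pe_est hΩ hb h1 h2 h3
      have hpos : ∀ n : ℕ, 0 < δ / ((n : ℝ) + 1) := fun n => by positivity
      have hle : ∀ n : ℕ, δ / ((n : ℝ) + 1) ≤ δ := fun n => by
        rw [div_le_iff₀ (by positivity)]
        nlinarith [(Nat.cast_nonneg n : (0 : ℝ) ≤ n)]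
      choose q k1 k2 k3 using fun n : ℕ => hq _ (hpos n) (hle n)
      have hr : r ∈ graphW Ω := Submodule.le_topologicalClosure _ ⟨φ, h1, h2, h3⟩
      have hlim1 : Tendsto (fun n => (q n).1) atTop (𝓝 r.1) := by
        rw [tendsto_iff_norm_sub_tendsto_zero]
        have h4 : Tendsto (fun n : ℕ => A * (δ / ((n : ℝ) + 1)) ^ 2) atTop (𝓝 0) := by
          have h5 : Tendsto (fun n : ℕ => δ / ((n : ℝ) + 1)) atTop (𝓝 0) := by
            have := (tendsto_one_div_add_atTop_nhds_zero_nat (𝕜 := ℝ)).const_mul δ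
            rw [mul_zero] at this
            refine this.congr fun n => ?_
            ring
          have := (h5.pow 2).const_mul A
          simpa using this
        have h6 : Tendsto (fun n => ‖(q n).1 - r.1‖ ^ 2) atTop (𝓝 0) :=
          squeeze_zero (fun n => by positivity) k2 h4
        have h7 := h6.sqrt
        simpa [Real.sqrt_sq] using h7
      have hbd : ∀ n, ‖(q n).2‖ ≤ √A + ‖r.2‖ := fun n => by
        have h8 : ‖(q n).2 - r.2‖ ≤ √A := Real.le_sqrt_of_sq_le (k3 n)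
        calc ‖(q n).2‖ = ‖((q n).2 - r.2) + r.2‖ := by rw [sub_add_cancel]
          _ ≤ ‖(q n).2 - r.2‖ + ‖r.2‖ := norm_add_le _ _
          _ ≤ _ := by linarith
      obtain ⟨y, -, hy⟩ := exists_weak_limit (hyperfilter ℕ) (fun n => (q n).2) _
        (Eventually.of_forall hbd)
      have hUle : ((hyperfilter ℕ : Ultrafilter ℕ) : Filter ℕ) ≤ atTop := Nat.hyperfilter_le_atTop
      have hmem : (r.1, y) ∈ M := by
        refine mem_of_weak_limit M hMcl (hyperfilter ℕ : Filter ℕ) (fun n => (q n).1)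
          (fun n => (q n).2) r.1 y (Eventually.of_forall fun n => ?_) (fun v => ?_) hy
        · exact hSM _ (half_pos (hpos n)) (k1 n)
        · exact (hlim1.mono_left hUle).inner tendsto_const_nhds
      have e : y = r.2 := grad_unique Fr (hMle hmem) hr
      rw [e] at hmem
      exact hmem
    exact h0 hp
  have hpc : p ∈ closure ((⨆ n, S n : Submodule ℝ (L2V Ω × L2M Ω)) : Set (L2V Ω × L2M Ω)) := by
    rw [← Submodule.topologicalClosure_coe]
    exact hpM
  obtain ⟨q, hq, hd⟩ := Metric.mem_closure_iff.1 hpc η hη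
  rw [SetLike.mem_coe, Submodule.mem_iSup_of_directed _ hdir] at hq
  obtain ⟨n, hn⟩ := hq
  refine ⟨1 / ((n : ℝ) + 1), by positivity, q, hn, ?_⟩
  rw [← dist_eq_norm, dist_comm]
  exact hd

end Pool.Agent.H303.RS
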