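import Pool.Agent.H303.RS.Mos
import Pool.Agent.H303.DS.Fin
import Pool.Graph.R_seed8.W503.TQ.Uni

/-!
The limit of a high order of the rotational symmetry, internal form.
-/

set_option autoImplicit false
set_option linter.unusedSectionVars false

open MeasureTheory Set Filter Topology
open scoped InnerProductSpace

namespace Pool.Agent.H303.RS

open H772R2.NS
open H772R2.NSR (Frame exists_frame rellich_W prim_cont grad_unique)
open Pool.Agent.Y303.NF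
open Pool.Agent.W795.TQ
open Pool.Agent.X187.NSC hiding fam_close weak_limit core open_ultra
open Pool.Agent.H303.DS

variable {Ω Ω' : Set E3} {ν T : ℝ}

theorem regB_mono {H K : Type} [NormedAddCommGroup H] [InnerProductSpace ℝ H]
    [NormedAddCommGroup K] [InnerProductSpace ℝ K] {W : Submodule ℝ (H × K)} {m : H → K}
    {R R' L L' : ℝ} (hR : R' ≤ R) (hL : L ≤ L') (h : RegB W m ν T R L) : RegB W m ν T R' L' := by
  intro d hd hs
  obtain ⟨u, u1, z, z1, h1, h2, h3⟩ := h d hd (hs.trans hR)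
  exact ⟨u, u1, z, z1, h1, h2, fun t ht => (h3 t ht).trans hL⟩

/-- Regularity for symmetric data in `Ω'` in terms of the spaces extended to `Ω`. -/
theorem regSym_ext (hΩ : IsOpen Ω) (hb : Bornology.IsBounded Ω) (hΩ' : IsOpen Ω') (hsub : Ω' ⊆ Ω)
    {α : ℝ} (h : Inv α Ω) (h' : Inv α Ω') (hν : 0 < ν) (hT : 0 < T) (R L : ℝ) :
    RegSym (graphW Ω') tensL (UI hΩ'.measurableSet h') (VI hΩ'.measurableSet h') ν T R L ↔
      RegB (invW (extW Ω Ω') (UI hΩ.measurableSet h) (VI hΩ.measurableSet h)) tensL ν T R L := by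
  obtain ⟨C, Fr⟩ := exists_frame hΩ' (hb.subset hsub)
  rw [regSym_iff Pool.Agent.W503.TQ.proof_uni Fr (graphW_closed Ω') (symm_rot hΩ'.measurableSet h')
    hν hT R L]
  exact (emb_inv (emb_ext hΩ'.measurableSet hΩ.measurableSet hsub)
    (ext_UI hΩ'.measurableSet hΩ.measurableSet hsub h' h)
    (ext_VI hΩ'.measurableSet hΩ.measurableSet hsub h' h)).regB_iff hT.le R L

theorem goodSym_self (hΩ : IsOpen Ω) (hb : Bornology.IsBounded Ω) {α : ℝ} (h : Inv α Ω)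
    (hν : 0 < ν) (hT : 0 < T) (R : ℝ) :
    GoodSym (graphW Ω) tensL (UI hΩ.measurableSet h) (VI hΩ.measurableSet h) ν T R ↔
      ∀ d : Dat (L2V Ω) (L2M Ω), Adm (invW (graphW Ω) (UI hΩ.measurableSet h)
        (VI hΩ.measurableSet h)) tensL ν T d → d.size T ≤ R →
        Good (invW (graphW Ω) (UI hΩ.measurableSet h) (VI hΩ.measurableSet h)) tensL ν T d := by
  obtain ⟨C, Fr⟩ := exists_frame hΩ hb
  exact goodSym_iff Pool.Agent.W503.TQ.proof_uni Fr (graphW_closed Ω)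
    (symm_rot hΩ.measurableSet h) hν hT R

/-- (1) implies (2) -/
theorem one_two (hΩ : IsOpen Ω) (hb : Bornology.IsBounded Ω) (h : ∀ α, Inv α Ω)
    (hν : 0 < ν) (hT : 0 < T) {R : ℝ} (hR : 0 ≤ R)
    (H : GoodSym (graphW Ω) tensL (UI hΩ.measurableSet (h 1)) (VI hΩ.measurableSet (h 1)) ν T R) :
    ∃ R' : ℝ, R < R' ∧ ∃ L δ : ℝ, 0 < δ ∧ ∃ k0 : ℕ, ∀ k : ℕ, k0 < k → ∀ (Ω' : Set E3)
      (hΩ' : IsOpen Ω'), Oc Ω δ ⊆ Ω' → Ω' ⊆ Ω → ∀ hi : Inv (2 * Real.pi / k) Ω',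
      RegSym (graphW Ω') tensL (UI hΩ'.measurableSet hi) (VI hΩ'.measurableSet hi) ν T R' L := by
  by_contra hcon
  push Not at hcon
  have hP : ∀ n : ℕ, ∃ k : ℕ, n < k ∧ ∃ (Ω' : Set E3) (hΩ' : IsOpen Ω'),
      Oc Ω (1 / ((n : ℝ) + 1)) ⊆ Ω' ∧ Ω' ⊆ Ω ∧ ∃ hi : Inv (2 * Real.pi / k) Ω',
      ¬ RegSym (graphW Ω') tensL (UI hΩ'.measurableSet hi) (VI hΩ'.measurableSet hi) ν T
        (R + 1 / ((n : ℝ) + 1)) n := by
    intro n
    obtain ⟨k, h1, Ω', h2, h3, h4, h5, h6⟩ := hcon (R + 1 / ((n : ℝ) + 1)) (by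
      have : (0 : ℝ) < 1 / ((n : ℝ) + 1) := by positivity
      linarith) n (1 / ((n : ℝ) + 1)) (by positivity) n
    exact ⟨k, h1, Ω', h2, h3, h4, h5, h6⟩
  choose k hk Ωn hΩn hsup hsub hi hbad using hP
  have hkl : Tendsto k atTop atTop :=
    tendsto_atTop_mono (fun n => (hk n).le) tendsto_id
  obtain ⟨j, hj⟩ := angle_lim hkl
  have hM := mos_rot hΩ hb h (Ωn := Ωn) (δ := fun n : ℕ => 1 / ((n : ℝ) + 1))
    (fun n => by positivity) tendsto_one_div_add_atTop_nhds_zero_nat hsub hsup hj hi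
  obtain ⟨c, hc, hU⟩ := Pool.Agent.W52.TQ.proof_univ
  obtain ⟨C, Fr0⟩ := exists_frame hΩ hb
  obtain ⟨R', h1, L, n0, h2⟩ := main_abs (ν := ν) (T := T) Fr0 (hU Ω hΩ) invW_le
    (invW_closed (graphW_closed Ω)) hν hT (rellich_W hΩ hb)
    (fun n => invW_le.trans (extW_le (hsub n))) (fun n => invW_closed (extW_closed Ω (Ωn n))) hM hR
    ((goodSym_self hΩ hb (h 1) hν hT R).mp H)
  -- a large index
  have e1 : ∀ᶠ n : ℕ in atTop, 1 / ((n : ℝ) + 1) < R' - R :=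
    tendsto_one_div_add_atTop_nhds_zero_nat.eventually (gt_mem_nhds (by linarith))
  have e2 : ∀ᶠ n : ℕ in atTop, L ≤ n := tendsto_natCast_atTop_atTop.eventually_ge_atTop L
  obtain ⟨n, ⟨k1, k2⟩, k3⟩ := ((e1.and e2).and (eventually_ge_atTop n0)).exists
  refine hbad n ((regSym_ext hΩ hb (hΩn n) (hsub n) (h _) (hi n) hν hT _ _).mpr ?_)
  exact regB_mono (by linarith) k2 (h2 n k3)

/-- (3) implies (1) -/
theorem three_one (hΩ : IsOpen Ω) (hb : Bornology.IsBounded Ω) (h : ∀ α, Inv α Ω)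
    (hOc : ∀ δ, Inv 1 (Oc Ω δ)) (hν : 0 < ν) (hT : 0 < T) {R : ℝ} (hR : 0 ≤ R) {R' L : ℝ}
    (hR' : R < R')
    (H : ∀ ε : ℝ, 0 < ε → ∃ δ : ℝ, 0 < δ ∧ δ < ε ∧
      RegSym (graphW (Oc Ω δ)) tensL (UI (Oc_open hΩ δ).measurableSet (hOc δ))
        (VI (Oc_open hΩ δ).measurableSet (hOc δ)) ν T R' L) :
    GoodSym (graphW Ω) tensL (UI hΩ.measurableSet (h 1)) (VI hΩ.measurableSet (h 1)) ν T R := by
  have hP : ∀ n : ℕ, ∃ δ : ℝ, 0 < δ ∧ δ < 1 / ((n : ℝ) + 1) ∧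
      RegSym (graphW (Oc Ω δ)) tensL (UI (Oc_open hΩ δ).measurableSet (hOc δ))
        (VI (Oc_open hΩ δ).measurableSet (hOc δ)) ν T R' L := fun n => H _ (by positivity)
  choose δ hδ0 hδ1 hreg using hP
  have hδl : Tendsto δ atTop (𝓝 0) := squeeze_zero (fun n => (hδ0 n).le) (fun n => (hδ1 n).le)
    tendsto_one_div_add_atTop_nhds_zero_nat
  have hM := mos_rot hΩ hb h (Ωn := fun n => Oc Ω (δ n)) (δ := δ) (fun n => (hδ0 n).le) hδl
    (fun n => Oc_sub _ _) (fun n => le_rfl) (a := fun _ => 1) (j := fun _ => 1)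
    (by simp) (fun n => hOc (δ n))
  obtain ⟨c, hc, hU⟩ := Pool.Agent.W52.TQ.proof_univ
  obtain ⟨C, Fr0⟩ := exists_frame hΩ hb
  have key := transfer_abs (ν := ν) (T := T) Fr0 (hU Ω hΩ) invW_le
    (invW_closed (graphW_closed Ω)) hν hT (rellich_W hΩ hb)
    (fun n => invW_le.trans (extW_le (Oc_sub Ω (δ n))))
    (fun n => invW_closed (extW_closed Ω (Oc Ω (δ n)))) hM hR
  refine (goodSym_self hΩ hb (h 1) hν hT R).mpr ?_
  have key2 := (key.out 0 1).2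
  refine key2 ⟨R', hR', L, Eventually.of_forall fun n => ?_⟩
  exact (regSym_ext hΩ hb (Oc_open hΩ (δ n)) (Oc_sub Ω (δ n)) (h 1) (hOc (δ n)) hν hT R' L).mp
    (hreg n)

/-- Existence of the axisymmetric solutions away from the axis. -/
theorem axi_exists (hΩ : IsOpen Ω) (hb : Bornology.IsBounded Ω) (h : ∀ α, Inv α Ω) {ρ : ℝ}
    (hρ : 0 < ρ) (hsub : ∀ x ∈ Ω, ρ ^ 2 < rr x) (hν : 0 < ν) (hT : 0 < T)
    {d : Dat (L2V Ω) (L2M Ω)} (hd : Adm (graphW Ω) tensL ν T d)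
    (hs : SymDat (graphW Ω) (UI hΩ.measurableSet (h 1)) (VI hΩ.measurableSet (h 1)) T d) :
    Good (graphW Ω) tensL ν T d := by
  have hm := hΩ.measurableSet
  obtain ⟨M0, hM0⟩ := hb.subset_closedBall (0 : E3)
  set M : ℝ := max M0 1 with hM
  have hM1 : 0 < M := lt_of_lt_of_le one_pos (le_max_right _ _)
  have hbx : ∀ x ∈ Ω, ρ ^ 2 ≤ x 0 ^ 2 + x 1 ^ 2 ∧ x 0 ^ 2 + x 1 ^ 2 ≤ M ^ 2 := by
    intro x hx
    refine ⟨(hsub x hx).le, ?_⟩
    have h1 : ‖x‖ ≤ M0 := by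
      have := hM0 hx
      rwa [mem_closedBall_zero_iff] at this
    have h2 : ‖x‖ ^ 2 ≤ M ^ 2 := by
      have : ‖x‖ ≤ M := h1.trans (le_max_left _ _)
      gcongr
    rw [norm_sq_E3, sum3] at h2
    nlinarith [sq_nonneg (x 2)]
  have hFc : ContinuousOn d.F (Icc 0 T) := prim_cont hd.force.memLp hd.force.prim
  obtain ⟨Φ, hΦ⟩ := (isCompact_Icc.image_of_continuousOn hFc).isBounded.exists_norm_le
  have hΦ' : ∀ t ∈ Icc 0 T, ‖d.F t‖ ≤ Φ := fun t ht => hΦ _ ⟨t, ht, rfl⟩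
  set X : ℝ := ‖d.x‖ ^ 2 + (∫ s in (0 : ℝ)..T, ‖d.F s‖ ^ 2) / ν with hX
  have hX0 : 0 ≤ X := by
    have : 0 ≤ ∫ s in (0 : ℝ)..T, ‖d.F s‖ ^ 2 :=
      intervalIntegral.integral_nonneg hT.le fun s _ => by positivity
    positivity
  set Y : ℝ := 17 * ‖d.g‖ ^ 2 + (∫ s in (0 : ℝ)..T, ‖d.F1 s‖ ^ 2) / ν with hY
  have hY0 : 0 ≤ Y := by
    have : 0 ≤ ∫ s in (0 : ℝ)..T, ‖d.F1 s‖ ^ 2 :=
      intervalIntegral.integral_nonneg hT.le fun s _ => by positivity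
    positivity
  set Z : ℝ := 432 * M ^ 2 * √X ^ 2 * (Φ ^ 2 + 2 * ν * √X * (√(Y + 1) *
    Real.exp (√X ^ 2 / (Real.pi * ρ * ν ^ 2) + 1 / 2))) with hZ
  obtain ⟨n, hn⟩ := exists_nat_ge (max (Z / (ρ ^ 2 * ν ^ 6)) 1)
  have hn1 : (1 : ℝ) ≤ n := (le_max_right _ _).trans hn
  have hn0 : 0 < n := by
    have : (0 : ℝ) < n := by linarith
    exact_mod_cast this
  have hn2 : Z / (ρ ^ 2 * ν ^ 6) ≤ n := (le_max_left _ _).trans hn
  have hcond : Z ≤ n ^ 2 * ρ ^ 2 * ν ^ 6 := by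
    rw [div_le_iff₀ (by positivity)] at hn2
    have h5 : (n : ℝ) * (ρ ^ 2 * ν ^ 6) ≤ (n : ℝ) ^ 2 * (ρ ^ 2 * ν ^ 6) := by
      have : (n : ℝ) ≤ (n : ℝ) ^ 2 := by nlinarith
      gcongr
    calc Z ≤ n * (ρ ^ 2 * ν ^ 6) := hn2
      _ ≤ n ^ 2 * (ρ ^ 2 * ν ^ 6) := h5
      _ = n ^ 2 * ρ ^ 2 * ν ^ 6 := by ring
  obtain ⟨C, v, Fr, hv0, hv⟩ := nf_mid Pool.Agent.W52.TQ.proof_loc Pool.Agent.W503.TQ.proof_uni hΩ hb
    hρ hM1 hbx hn0 (h _) hν (I := {T}) (fun S hS => by rw [mem_singleton_iff.1 hS]; exact hT)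
    (F := d.F) (F1 := d.F1) (fun S hS => by rw [mem_singleton_iff.1 hS]; exact hd.force)
    hd.mem (fun p hp => hd.comp p hp) (UI_all hm h hs.x _)
    (fun S hS t ht => force_all hm h (hs.F t (by rw [mem_singleton_iff.1 hS] at ht; exact ht)) _)
    (E := √X) (Φ := Φ) (B := √(Y + 1)) (Real.sqrt_nonneg _)
    (fun S hS => by
      rw [mem_singleton_iff.1 hS, Real.sq_sqrt hX0])
    (fun S hS t ht => hΦ' t (by rw [mem_singleton_iff.1 hS] at ht; exact ht))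
    (Real.sqrt_pos.2 (by positivity))
    (fun S hS => by
      rw [mem_singleton_iff.1 hS, Real.sq_sqrt (by positivity)]
      linarith)
    hcond
  exact ⟨v, _, _, _, hv T rfl, hv0⟩

end Pool.Agent.H303.RS
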