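import Pool.Agent.H303.RS.Rot
import Pool.Agent.H303.RS.Axis4

/-!
Mosco convergence of the subspaces of the symmetric fields.
-/

set_option autoImplicit false
set_option linter.unusedSectionVars false

open MeasureTheory Set Filter Topology
open scoped InnerProductSpace

namespace Pool.Agent.H303.RS

open H772R2.NS
open H772R2.NSR (mem_of_weak_limit)
open Pool.Agent.Y303.NF
open Pool.Agent.H303.DS

variable {Ω Ω' : Set E3} {α β : ℝ}

/-- The extended spaces are invariant. -/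
theorem extW_rot (hm : MeasurableSet Ω) (h : Inv α Ω) (h' : Inv α Ω') {p : L2V Ω × L2M Ω}
    (hp : p ∈ extW Ω Ω') : (UI hm h p.1, VI hm h p.2) ∈ extW Ω Ω' := by
  have hc : Continuous fun p : L2V Ω × L2M Ω => (UI hm h p.1, VI hm h p.2) :=
    ((UI hm h).continuous.comp continuous_fst).prodMk ((VI hm h).continuous.comp continuous_snd)
  have hp' : p ∈ closure (preV Ω Ω' : Set (L2V Ω × L2M Ω)) := by
    rw [← extW_coe]
    exact hp
  show _ ∈ (extW Ω Ω' : Set (L2V Ω × L2M Ω))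
  rw [extW_coe]
  refine map_mem_closure (f := fun p : L2V Ω × L2M Ω => (UI hm h p.1, VI hm h p.2)) hc hp' ?_
  rintro q ⟨φ, h1, h2, h3⟩
  exact ⟨rotT α φ, rotT_test h' h1, UI_test hm h h2, VI_test hm h h1.smooth h3⟩

theorem UI_zero (hm : MeasurableSet Ω) (h : Inv 0 Ω) (v : L2V Ω) : UI hm h v = v := by
  apply Lp.ext
  filter_upwards [UI_coe hm h v] with x k1
  rw [k1, rotF_zero, neg_zero, rotF_zero]

theorem VI_zero (hm : MeasurableSet Ω) (h : Inv 0 Ω) (v : L2M Ω) : VI hm h v = v := by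
  apply Lp.ext
  filter_upwards [VI_coe hm h v] with x k1
  rw [k1, cnjF_zero, neg_zero, rotF_zero]

theorem rotF_neg_two_pi (x : E3) : rotF (-(2 * Real.pi)) x = x := by
  have := rotF_neg' (2 * Real.pi) x
  rwa [rotF_two_pi] at this

theorem Q_two_pi (i j : Fin 3) : Q (2 * Real.pi) i j = Q 0 i j := by
  unfold Q
  rw [rotF_two_pi, rotF_zero]

theorem UI_two_pi (hm : MeasurableSet Ω) (h : Inv (2 * Real.pi) Ω) (v : L2V Ω) :
    UI hm h v = v := by
  apply Lp.ext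
  filter_upwards [UI_coe hm h v] with x k1
  rw [k1, rotF_neg_two_pi, rotF_two_pi]

theorem cnjF_two_pi (G : M3) : cnjF (2 * Real.pi) G = G := by
  have : cnjF (2 * Real.pi) G = cnjF 0 G := by
    ext p
    simp only [cnjF_apply, Q_two_pi]
  rw [this, cnjF_zero]

theorem VI_two_pi (hm : MeasurableSet Ω) (h : Inv (2 * Real.pi) Ω) (v : L2M Ω) :
    VI hm h v = v := by
  apply Lp.ext
  filter_upwards [VI_coe hm h v] with x k1
  rw [k1, rotF_neg_two_pi, cnjF_two_pi]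

theorem UI_inv' (hm : MeasurableSet Ω) (h : Inv α Ω) (h' : Inv (-α) Ω) (v : L2V Ω) :
    UI hm h' (UI hm h v) = v := by
  have h0 : Inv (-α + α) Ω := by
    rw [neg_add_cancel]
    intro x
    rw [rotF_zero]
  rw [UI_add hm h' h h0]
  apply Lp.ext
  filter_upwards [UI_coe hm h0 v] with x k1
  rw [k1, neg_add_cancel, rotF_zero, neg_zero, rotF_zero]

theorem VI_inv' (hm : MeasurableSet Ω) (h : Inv α Ω) (h' : Inv (-α) Ω) (v : L2M Ω) :
    VI hm h' (VI hm h v) = v := by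
  have h0 : Inv (-α + α) Ω := by
    rw [neg_add_cancel]
    intro x
    rw [rotF_zero]
  rw [VI_add hm h' h h0]
  apply Lp.ext
  filter_upwards [VI_coe hm h0 v] with x k1
  rw [k1, neg_add_cancel, cnjF_zero, neg_zero, rotF_zero]

theorem UI_adj (hm : MeasurableSet Ω) (h : Inv α Ω) (h' : Inv (-α) Ω) (v w : L2V Ω) :
    ⟪UI hm h v, w⟫_ℝ = ⟪v, UI hm h' w⟫_ℝ := by
  rw [← (UI hm h').inner_map_map (UI hm h v) w, UI_inv' hm h h']

theorem VI_adj (hm : MeasurableSet Ω) (h : Inv α Ω) (h' : Inv (-α) Ω) (v w : L2M Ω) :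
    ⟪VI hm h v, w⟫_ℝ = ⟪v, VI hm h' w⟫_ℝ := by
  rw [← (VI hm h').inner_map_map (VI hm h v) w, VI_inv' hm h h']

/-- Fields which are invariant under the rotation by `1` are invariant under all rotations. -/
theorem UI_all (hm : MeasurableSet Ω) (h : ∀ α, Inv α Ω) {v : L2V Ω}
    (h1 : UI hm (h 1) v = v) (α : ℝ) : UI hm (h α) v = v := by
  refine all_angles (S := {α | UI hm (h α) v = v}) ?_ ?_ ?_ ?_ h1 ?_ α
  · exact isClosed_eq (UI_cont hm h v) continuous_const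
  · exact UI_zero hm (h 0) v
  · intro a ha b hb
    have ha' : UI hm (h a) v = v := ha
    have hb' : UI hm (h b) v = v := hb
    show UI hm (h (a + b)) v = v
    rw [← UI_add hm (h a) (h b) (h (a + b)), hb', ha']
  · intro a ha
    have ha' : UI hm (h a) v = v := ha
    show UI hm (h (-a)) v = v
    conv_lhs => rw [← ha']
    exact UI_inv' hm (h a) (h (-a)) v
  · exact UI_two_pi hm _ v

theorem VI_all (hm : MeasurableSet Ω) (h : ∀ α, Inv α Ω) {v : L2M Ω}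
    (h1 : VI hm (h 1) v = v) (α : ℝ) : VI hm (h α) v = v := by
  refine all_angles (S := {α | VI hm (h α) v = v}) ?_ ?_ ?_ ?_ h1 ?_ α
  · exact isClosed_eq (VI_cont hm h v) continuous_const
  · exact VI_zero hm (h 0) v
  · intro a ha b hb
    have ha' : VI hm (h a) v = v := ha
    have hb' : VI hm (h b) v = v := hb
    show VI hm (h (a + b)) v = v
    rw [← VI_add hm (h a) (h b) (h (a + b)), hb', ha']
  · intro a ha
    have ha' : VI hm (h a) v = v := ha
    show VI hm (h (-a)) v = v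
    conv_lhs => rw [← ha']
    exact VI_inv' hm (h a) (h (-a)) v
  · exact VI_two_pi hm _ v

/-- Forces which are invariant under the rotation by `1` are invariant under all rotations. -/
theorem force_all (hm : MeasurableSet Ω) (h : ∀ α, Inv α Ω) {f : L2M Ω}
    (h1 : ∀ p ∈ graphW Ω, ⟪f, VI hm (h 1) p.2⟫_ℝ = ⟪f, p.2⟫_ℝ) (α : ℝ) :
    ∀ p ∈ graphW Ω, ⟪f, VI hm (h α) p.2⟫_ℝ = ⟪f, p.2⟫_ℝ := by
  refine all_angles (S := {α | ∀ p ∈ graphW Ω, ⟪f, VI hm (h α) p.2⟫_ℝ = ⟪f, p.2⟫_ℝ})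
    ?_ ?_ ?_ ?_ h1 ?_ α
  · have e : {α | ∀ p ∈ graphW Ω, ⟪f, VI hm (h α) p.2⟫_ℝ = ⟪f, p.2⟫_ℝ}
        = ⋂ p ∈ graphW Ω, {α | ⟪f, VI hm (h α) p.2⟫_ℝ = ⟪f, p.2⟫_ℝ} := by
      ext a
      simp
    rw [e]
    refine isClosed_biInter fun p _ => isClosed_eq ?_ continuous_const
    exact continuous_const.inner (VI_cont hm h p.2)
  · intro p _
    rw [VI_zero]
  · intro a ha b hb p hp
    rw [← VI_add hm (h a) (h b) (h (a + b))]
    exact (ha _ (W_mem hm (h b) hp)).trans (hb p hp)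
  · intro a ha p hp
    have h2 := ha _ (W_mem hm (h (-a)) hp)
    have e : VI hm (h a) (VI hm (h (-a)) p.2) = p.2 := VI_inv hm (h a) p.2
    simp only at h2
    rw [e] at h2
    exact h2.symm
  · intro p _
    rw [VI_two_pi]

theorem UI_iter (hm : MeasurableSet Ω) (h : ∀ α, Inv α Ω) {v : L2V Ω}
    (h1 : UI hm (h α) v = v) (j : ℕ) : UI hm (h (j * α)) v = v := by
  induction j with
  | zero =>
    have h0 : Inv (((0 : ℕ) : ℝ) * α) Ω := h _
    have : ((0 : ℕ) : ℝ) * α = 0 := by simp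
    apply Lp.ext
    filter_upwards [UI_coe hm (h (((0 : ℕ) : ℝ) * α)) v] with x k1
    rw [k1, this, rotF_zero, neg_zero, rotF_zero]
  | succ j ih =>
    have h2 := UI_add hm (h α) (h (j * α)) (h (α + j * α)) v
    rw [ih, h1] at h2
    apply Lp.ext
    have e : ((j + 1 : ℕ) : ℝ) * α = α + j * α := by push_cast; ring
    filter_upwards [UI_coe hm (h (((j + 1 : ℕ) : ℝ) * α)) v, UI_coe hm (h (α + j * α)) v]
      with x k1 k2
    rw [k1, e, ← k2, ← h2]

theorem VI_iter (hm : MeasurableSet Ω) (h : ∀ α, Inv α Ω) {v : L2M Ω}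
    (h1 : VI hm (h α) v = v) (j : ℕ) : VI hm (h (j * α)) v = v := by
  induction j with
  | zero =>
    have : ((0 : ℕ) : ℝ) * α = 0 := by simp
    apply Lp.ext
    filter_upwards [VI_coe hm (h (((0 : ℕ) : ℝ) * α)) v] with x k1
    rw [k1, this, cnjF_zero, neg_zero, rotF_zero]
  | succ j ih =>
    have h2 := VI_add hm (h α) (h (j * α)) (h (α + j * α)) v
    rw [ih, h1] at h2
    apply Lp.ext
    have e : ((j + 1 : ℕ) : ℝ) * α = α + j * α := by push_cast; ring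
    filter_upwards [VI_coe hm (h (((j + 1 : ℕ) : ℝ) * α)) v, VI_coe hm (h (α + j * α)) v]
      with x k1 k2
    rw [k1, e, ← k2, ← h2]

/-- weakly convergent sequences are bounded -/
theorem weak_bdd {E : Type} [NormedAddCommGroup E] [InnerProductSpace ℝ E] [CompleteSpace E]
    {q : ℕ → E} {p : E} (h : ∀ v, Tendsto (fun n => ⟪q n, v⟫_ℝ) atTop (𝓝 ⟪p, v⟫_ℝ)) :
    ∃ B : ℝ, ∀ n, ‖q n‖ ≤ B := by
  obtain ⟨B, hB⟩ := banach_steinhaus (g := fun n => innerSL ℝ (q n)) fun v => by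
    obtain ⟨C, hC⟩ := (h v).norm.bddAbove_range
    exact ⟨C, fun n => hC ⟨n, rfl⟩⟩
  exact ⟨B, fun n => by
    have := hB n
    rwa [innerSL_apply_norm] at this⟩

/-- Weak limits of fields which are invariant under rotations by small angles. -/
theorem UI_limit (hm : MeasurableSet Ω) (h : ∀ α, Inv α Ω) {a : ℕ → ℝ} {j : ℕ → ℕ}
    (ha : Tendsto (fun n => (j n : ℝ) * a n) atTop (𝓝 1)) {q : ℕ → L2V Ω} {p : L2V Ω}
    (hq : ∀ n, UI hm (h (a n)) (q n) = q n)
    (hw : ∀ v, Tendsto (fun n => ⟪q n, v⟫_ℝ) atTop (𝓝 ⟪p, v⟫_ℝ)) : UI hm (h 1) p = p := by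
  obtain ⟨B, hB⟩ := weak_bdd hw
  refine ext_inner_right ℝ fun v => ?_
  have h1 : ∀ n, ⟪q n, v⟫_ℝ = ⟪q n, UI hm (h (-((j n : ℝ) * a n))) v⟫_ℝ := by
    intro n
    conv_lhs => rw [← UI_iter hm h (hq n) (j n)]
    exact UI_adj hm (h _) (h _) _ _
  have h2 : Tendsto (fun n => UI hm (h (-((j n : ℝ) * a n))) v) atTop (𝓝 (UI hm (h (-1)) v)) :=
    ((UI_cont hm h v).tendsto (-1)).comp ha.neg
  have h3 := weak_strong hB hw h2
  have h4 : Tendsto (fun n => ⟪q n, v⟫_ℝ) atTop (𝓝 ⟪p, UI hm (h (-1)) v⟫_ℝ) :=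
    h3.congr fun n => (h1 n).symm
  have h5 := tendsto_nhds_unique h4 (hw v)
  rw [UI_adj hm (h 1) (h (-1))]
  exact h5

theorem VI_limit (hm : MeasurableSet Ω) (h : ∀ α, Inv α Ω) {a : ℕ → ℝ} {j : ℕ → ℕ}
    (ha : Tendsto (fun n => (j n : ℝ) * a n) atTop (𝓝 1)) {q : ℕ → L2M Ω} {p : L2M Ω}
    (hq : ∀ n, VI hm (h (a n)) (q n) = q n)
    (hw : ∀ v, Tendsto (fun n => ⟪q n, v⟫_ℝ) atTop (𝓝 ⟪p, v⟫_ℝ)) : VI hm (h 1) p = p := by
  obtain ⟨B, hB⟩ := weak_bdd hw
  refine ext_inner_right ℝ fun v => ?_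
  have h1 : ∀ n, ⟪q n, v⟫_ℝ = ⟪q n, VI hm (h (-((j n : ℝ) * a n))) v⟫_ℝ := by
    intro n
    conv_lhs => rw [← VI_iter hm h (hq n) (j n)]
    exact VI_adj hm (h _) (h _) _ _
  have h2 : Tendsto (fun n => VI hm (h (-((j n : ℝ) * a n))) v) atTop (𝓝 (VI hm (h (-1)) v)) :=
    ((VI_cont hm h v).tendsto (-1)).comp ha.neg
  have h3 := weak_strong hB hw h2
  have h4 : Tendsto (fun n => ⟪q n, v⟫_ℝ) atTop (𝓝 ⟪p, VI hm (h (-1)) v⟫_ℝ) :=
    h3.congr fun n => (h1 n).symm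
  have h5 := tendsto_nhds_unique h4 (hw v)
  rw [VI_adj hm (h 1) (h (-1))]
  exact h5

/-- Strong approximation by elements of a sequence of subspaces. -/
theorem exists_seq {E : Type} [NormedAddCommGroup E] [NormedSpace ℝ E] {S : ℕ → Submodule ℝ E}
    {p : E} (h : ∀ η : ℝ, 0 < η → ∀ᶠ n in atTop, ∃ q ∈ S n, ‖q - p‖ < η) :
    ∃ q : ℕ → E, (∀ n, q n ∈ S n) ∧ Tendsto q atTop (𝓝 p) := by
  have h1 : ∀ n, ∃ q ∈ S n, dist p q < Metric.infDist p (S n) + 1 / ((n : ℝ) + 1) := fun n =>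
    (Metric.infDist_lt_iff ⟨0, (S n).zero_mem⟩).1 (by
      have : (0 : ℝ) < 1 / ((n : ℝ) + 1) := by positivity
      linarith)
  choose q h2 h3 using h1
  refine ⟨q, h2, ?_⟩
  have h4 : Tendsto (fun n => Metric.infDist p (S n)) atTop (𝓝 0) := by
    rw [Metric.tendsto_nhds]
    intro η hη
    filter_upwards [h η hη] with n hn
    obtain ⟨r, hr, hd⟩ := hn
    rw [Real.dist_eq, sub_zero, abs_of_nonneg Metric.infDist_nonneg]
    refine (Metric.infDist_le_dist_of_mem hr).trans_lt ?_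
    rw [dist_comm, dist_eq_norm]
    exact hd
  rw [tendsto_iff_dist_tendsto_zero]
  have h5 : Tendsto (fun n : ℕ => Metric.infDist p (S n) + 1 / ((n : ℝ) + 1)) atTop (𝓝 0) := by
    have := h4.add (tendsto_one_div_add_atTop_nhds_zero_nat (𝕜 := ℝ))
    rwa [add_zero] at this
  refine squeeze_zero (fun _ => dist_nonneg) (fun n => ?_) h5
  rw [dist_comm]
  exact (h3 n).le

/-- **Mosco convergence of the spaces of symmetric fields.** -/
theorem mos_rot (hΩ : IsOpen Ω) (hb : Bornology.IsBounded Ω) (h : ∀ α, Inv α Ω)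
    {Ωn : ℕ → Set E3} {δ : ℕ → ℝ} (hδ0 : ∀ n, 0 ≤ δ n) (hδ : Tendsto δ atTop (𝓝 0))
    (hsub : ∀ n, Ωn n ⊆ Ω) (hsup : ∀ n, Oc Ω (δ n) ⊆ Ωn n) {a : ℕ → ℝ} {j : ℕ → ℕ}
    (ha : Tendsto (fun n => (j n : ℝ) * a n) atTop (𝓝 1)) (hinv : ∀ n, Inv (a n) (Ωn n)) :
    MosS (fun n => invW (extW Ω (Ωn n)) (UI hΩ.measurableSet (h (a n)))
        (VI hΩ.measurableSet (h (a n))))
      (invW (graphW Ω) (UI hΩ.measurableSet (h 1)) (VI hΩ.measurableSet (h 1))) where
  recov := fun p hp => by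
    have hm := hΩ.measurableSet
    obtain ⟨hp0, hp1, hp2⟩ := hp
    obtain ⟨q, hq1, hq2⟩ := exists_seq (S := fun n => extW Ω (Ωn n)) (p := p) (by
      intro η hη
      obtain ⟨δ0, hδ0', q, hq, hqp⟩ := axis_dense hΩ hb hp0 hη
      filter_upwards [hδ.eventually (gt_mem_nhds hδ0')] with n hn
      exact ⟨q, extW_mono ((Oc_mono Ω (hδ0 n) hn.le).trans (hsup n)) hq, hqp⟩)
    refine ⟨fun n => (fx (UI hm (h (a n))) (q n).1, fx (VI hm (h (a n))) (q n).2), fun n => ?_, ?_⟩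
    · exact fx_mem_inv (extW_closed Ω (Ωn n)) (fun r hr => extW_rot hm (h (a n)) (hinv n) hr) (hq1 n)
    · rw [tendsto_iff_norm_sub_tendsto_zero] at hq2 ⊢
      refine squeeze_zero (fun _ => norm_nonneg _) (fun n => ?_) hq2
      have e1 : fx (UI hm (h (a n))) p.1 = p.1 := fx_of_fix (UI_all hm h hp1 (a n))
      have e2 : fx (VI hm (h (a n))) p.2 = p.2 := fx_of_fix (VI_all hm h hp2 (a n))
      have e3 : fx (UI hm (h (a n))) (q n).1 - p.1 = fx (UI hm (h (a n))) ((q n).1 - p.1) := by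
        rw [map_sub, e1]
      have e4 : fx (VI hm (h (a n))) (q n).2 - p.2 = fx (VI hm (h (a n))) ((q n).2 - p.2) := by
        rw [map_sub, e2]
      rw [Prod.norm_def, Prod.norm_def]
      refine max_le_max ?_ ?_
      · show ‖fx (UI hm (h (a n))) (q n).1 - p.1‖ ≤ ‖(q n).1 - p.1‖
        rw [e3]
        exact fx_norm _
      · show ‖fx (VI hm (h (a n))) (q n).2 - p.2‖ ≤ ‖(q n).2 - p.2‖
        rw [e4]
        exact fx_norm _
  lim := fun φ hφ q p hq h1 h2 => by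
    have hm := hΩ.measurableSet
    refine ⟨?_, ?_, ?_⟩
    · exact mem_of_weak_limit (graphW Ω) (graphW_closed Ω) atTop (fun n => (q n).1)
        (fun n => (q n).2) p.1 p.2
        (Eventually.of_forall fun n => extW_le (hsub _) (hq n).1) h1 h2
    · exact UI_limit hm h (a := fun n => a (φ n)) (j := fun n => j (φ n))
        (ha.comp hφ.tendsto_atTop) (fun n => (hq n).2.1) h1
    · exact VI_limit hm h (a := fun n => a (φ n)) (j := fun n => j (φ n))
        (ha.comp hφ.tendsto_atTop) (fun n => (hq n).2.2) h2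

/-- the angles -/
theorem angle_lim {k : ℕ → ℕ} (hk : Tendsto k atTop atTop) :
    ∃ j : ℕ → ℕ, Tendsto (fun n => (j n : ℝ) * (2 * Real.pi / k n)) atTop (𝓝 1) := by
  have hpi := Real.pi_pos
  refine ⟨fun n => ⌊(k n : ℝ) / (2 * Real.pi)⌋₊, ?_⟩
  have hkr : Tendsto (fun n => (k n : ℝ)) atTop atTop := tendsto_natCast_atTop_atTop.comp hk
  have h1 : Tendsto (fun n => 2 * Real.pi / (k n : ℝ)) atTop (𝓝 0) :=
    tendsto_const_nhds.div_atTop hkr
  have h2 : Tendsto (fun n => 1 - 2 * Real.pi / (k n : ℝ)) atTop (𝓝 1) := by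
    have := h1.const_sub 1
    rwa [sub_zero] at this
  refine tendsto_of_tendsto_of_tendsto_of_le_of_le' h2 tendsto_const_nhds ?_ ?_
  · filter_upwards [hk.eventually_gt_atTop 0] with n hn
    have hn' : (0 : ℝ) < k n := by exact_mod_cast hn
    have h3 : (k n : ℝ) / (2 * Real.pi) < ⌊(k n : ℝ) / (2 * Real.pi)⌋₊ + 1 := Nat.lt_floor_add_one _
    have h4 : 0 < 2 * Real.pi / k n := by positivity
    have h5 : (k n : ℝ) / (2 * Real.pi) * (2 * Real.pi / k n) = 1 := by field_simp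
    have h6 := mul_lt_mul_of_pos_right h3 h4
    rw [h5] at h6
    linarith
  · filter_upwards [hk.eventually_gt_atTop 0] with n hn
    have hn' : (0 : ℝ) < k n := by exact_mod_cast hn
    have h3 : (⌊(k n : ℝ) / (2 * Real.pi)⌋₊ : ℝ) ≤ (k n : ℝ) / (2 * Real.pi) :=
      Nat.floor_le (by positivity)
    have h4 : 0 < 2 * Real.pi / k n := by positivity
    have h5 : (k n : ℝ) / (2 * Real.pi) * (2 * Real.pi / k n) = 1 := by field_simp
    have h6 := mul_le_mul_of_nonneg_right h3 h4.le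
    rw [h5] at h6
    exact h6

end Pool.Agent.H303.RS
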