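import Pool.Graph.R_pool_sql_team_seeded_64922ed1.X187.NSC.PubData
import Pool.Graph.R_seed8.Y303.NF.PubDef

/-!
Public definitions: data with a rotational symmetry.
-/

set_option autoImplicit false

open MeasureTheory Set
open scoped InnerProductSpace

namespace Pool.Agent.H303.RSP

open H772R2.NS.Pub Pool.Agent.X187.NSD Pool.Agent.Y303.NF

/-- The points of `Ω` the distance of which from the third coordinate axis exceeds `δ`. -/
def offAxis (Ω : Set R3) (δ : ℝ) : Set R3 := {x | x ∈ Ω ∧ δ ^ 2 < axisSq x}

/-- The set `Ω` is mapped into itself by the rotation by the angle `α` about the third axis. -/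
def RotInv (α : ℝ) (Ω : Set R3) : Prop := ∀ x ∈ Ω, rot α x ∈ Ω

/-- The initial velocity and the force on `[0,T]` are invariant under the rotation by the angle `α`
about the third axis. -/
def Invariant {Ω : Set R3} (α T : ℝ) (d : Data Ω) : Prop :=
  IsInvariant α d.u₀ ∧ ∀ t ∈ Icc 0 T, IsInvariantForce α (d.F t)

/-- The data are axisymmetric (swirl is allowed). -/
def Axisymmetric {Ω : Set R3} (T : ℝ) (d : Data Ω) : Prop := ∀ α, Invariant α T d

/-- All admissible data in `Ω` of size at most `R` which are invariant under the rotation by the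
angle `α` have a strong solution on `[0,T]` with `‖∇u(t)‖ ≤ L` for all `t ∈ [0,T]`. -/
def RegularInvariant (Ω : Set R3) (α ν T R L : ℝ) : Prop :=
  ∀ d : Data Ω, d.Admissible ν T → Invariant α T d → d.size T ≤ R →
    ∃ u u' G G', IsStrong Ω ν T d.F u u' G G' ∧ u 0 = d.u₀ ∧ ∀ t ∈ Icc 0 T, ‖G t‖ ≤ L

end Pool.Agent.H303.RSP
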