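import Pool.Agent.H303.RS.Fin
import Pool.Agent.H303.RS.PubDef

/-!
The limit of a high order of the rotational symmetry, in terms of the public definitions.
-/

set_option autoImplicit false
set_option linter.unusedSectionVars false

open MeasureTheory Set Filter Topology
open scoped InnerProductSpace

namespace Pool.Agent.H303.RS

open H772R2.NS H772R2.NS.Pub
open H772R2.NSR (Frame exists_frame rellich_W prim_cont grad_unique compat_ext pub_inner_jac exists_pair)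
open Pool.Agent.Y303.NF
open Pool.Agent.W795.TQ Pool.Agent.X187.NSD
open Pool.Agent.X187.NSC hiding fam_close weak_limit core open_ultra
open Pool.Agent.H303.DS
open Pool.Agent.H303.RSP

variable {Ω Ω' : Set E3} {ν T : ℝ} {α : ℝ}

theorem isInvariant_iff (hm : MeasurableSet Ω) (h : Inv α Ω) (v : L2V Ω) :
    IsInvariant (Ω := (show Set R3 from Ω)) α v ↔ UI hm h v = v := by
  constructor
  · intro hv
    apply Lp.ext
    have h1 : ∀ᵐ x ∂(volume.restrict Ω), v (rotF α x) = rotF α (v x) := by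
      filter_upwards [hv] with x hx
      rw [← rot_eq, ← rot_eq]
      exact hx
    filter_upwards [UI_coe hm h v, (mp hm h).quasiMeasurePreserving.ae h1] with x k1 k2
    rw [k1]
    have k3 : v (rotF α (rotF (-α) x)) = rotF α (v (rotF (-α) x)) := k2
    rw [← k3, rotF_neg]
  · intro hv
    have h1 : ∀ᵐ x ∂(volume.restrict Ω), v x = rotF α (v (rotF (-α) x)) := by
      have := UI_coe hm h v
      rwa [hv] at this
    have h2 := (mp hm h.neg).quasiMeasurePreserving.ae h1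
    show ∀ᵐ x ∂(volume.restrict Ω), v (rot α x : E3) = (rot α (v x) : E3)
    filter_upwards [h2] with x hx
    have k3 : v (rotF (- -α) x) = rotF α (v (rotF (-α) (rotF (- -α) x))) := hx
    rw [neg_neg, rotF_neg'] at k3
    rw [rot_eq, rot_eq]
    exact k3

theorem isInvariantForce_iff (hΩ : IsOpen Ω) (h : Inv α Ω) (F : L2M Ω) :
    IsInvariantForce (Ω := (show Set R3 from Ω)) α F ↔
      ∀ p ∈ graphW Ω, ⟪F, VI hΩ.measurableSet h p.2⟫_ℝ = ⟪F, p.2⟫_ℝ := by
  have hm := hΩ.measurableSet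
  have e4 : ∀ φ : E3 → E3, (fun y : R3 => rot α (φ (rot (-α) y))) = (rotT α φ : E3 → E3) := by
    intro φ
    funext y
    have a1 : (rot (-α) y : E3) = rotF (-α) y := rot_eq _ _
    have a2 : ∀ w : E3, (rot α w : E3) = rotF α w := fun w => rot_eq _ w
    exact (congrArg (fun w : E3 => (rot α (φ w) : E3)) a1).trans (a2 _)
  constructor
  · intro hF p hp
    have key := graphW_induction (fun q : L2V Ω × L2M Ω =>
      ⟪F, VI hm h q.2⟫_ℝ - ⟪F, q.2⟫_ℝ) (by
        have hc : Continuous fun q : L2V Ω × L2M Ω => VI hm h q.2 :=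
          (VI hm h).continuous.comp continuous_snd
        exact ((continuous_const.inner hc).sub (continuous_const.inner
          continuous_snd)).continuousOn) (by
      rintro q ⟨φ, k1, k2, k3⟩
      have e1 := hF φ ((isTest_iff φ).mpr k1)
      have e2 := pub_inner_jac (Ω := Ω) F k3
      have e3 := pub_inner_jac (Ω := Ω) F (VI_test hm h k1.smooth k3)
      rw [e4] at e1
      have e5 := (e3.symm.trans e1).trans e2
      exact sub_eq_zero.mpr e5) hp
    exact sub_eq_zero.mp key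
  · intro hF φ hφ
    have k1 : H772R2.NS.IsTest Ω φ := (isTest_iff φ).mp hφ
    obtain ⟨q, hq, k2, k3⟩ := exists_pair (Ω := Ω) k1
    have e2 := pub_inner_jac (Ω := Ω) F k3
    have e3 := pub_inner_jac (Ω := Ω) F (VI_test hm h k1.smooth k3)
    rw [e4]
    exact e3.trans ((hF q hq).trans e2.symm)

theorem symDat_iff (hΩ : IsOpen Ω) (h : Inv α Ω) (d : Data (show Set R3 from Ω)) :
    SymDat (graphW Ω) (UI hΩ.measurableSet h) (VI hΩ.measurableSet h) T (toDat d) ↔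
      Invariant α T d := by
  constructor
  · rintro ⟨h1, h2⟩
    exact ⟨(isInvariant_iff hΩ.measurableSet h _).mpr h1, fun t ht =>
      (isInvariantForce_iff hΩ h _).mpr (h2 t ht)⟩
  · rintro ⟨h1, h2⟩
    exact ⟨(isInvariant_iff hΩ.measurableSet h _).mp h1, fun t ht =>
      (isInvariantForce_iff hΩ h _).mp (h2 t ht)⟩

/-- Data invariant under the rotation by `1` are axisymmetric. -/
theorem axi_iff (hΩ : IsOpen Ω) (h : ∀ α, Inv α Ω) (d : Data (show Set R3 from Ω)) :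
    SymDat (graphW Ω) (UI hΩ.measurableSet (h 1)) (VI hΩ.measurableSet (h 1)) T (toDat d) ↔
      Axisymmetric T d := by
  constructor
  · rintro ⟨h1, h2⟩ α
    exact (symDat_iff hΩ (h α) d).mp ⟨UI_all hΩ.measurableSet h h1 α, fun t ht =>
      force_all hΩ.measurableSet h (h2 t ht) α⟩
  · intro hd
    exact (symDat_iff hΩ (h 1) d).mpr (hd 1)

theorem goodSym_pub (hΩ : IsOpen Ω) (hb : Bornology.IsBounded Ω) (h : ∀ α, Inv α Ω)
    (hT : 0 < T) (R : ℝ) :
    GoodSym (graphW Ω) tensL (UI hΩ.measurableSet (h 1)) (VI hΩ.measurableSet (h 1)) ν T R ↔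
      ∀ d : Data (show Set R3 from Ω), d.Admissible ν T → Axisymmetric T d → d.size T ≤ R →
        d.Regular ν T := by
  obtain ⟨C, Fr⟩ := exists_frame hΩ hb
  constructor
  · intro H d hd hs hR
    have hd' := (adm_iff hΩ d).mpr hd
    exact (good_iff hΩ Fr hT d hd').mp (H (toDat d) hd' ((axi_iff hΩ h d).mpr hs) hR)
  · intro H d hd hs hR
    have hd' : (ofDat d).Admissible ν T := (adm_iff hΩ (ofDat d)).mp hd
    exact (good_iff hΩ Fr hT (ofDat d) hd).mpr (H (ofDat d) hd'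
      ((axi_iff hΩ h (ofDat d)).mp hs) hR)

theorem regSym_pub (hΩ : IsOpen Ω) (hb : Bornology.IsBounded Ω) (h : Inv α Ω)
    (hT : 0 < T) (R L : ℝ) :
    RegSym (graphW Ω) tensL (UI hΩ.measurableSet h) (VI hΩ.measurableSet h) ν T R L ↔
      ∀ d : Data (show Set R3 from Ω), d.Admissible ν T → Invariant α T d → d.size T ≤ R →
        ∃ u u' G G', IsStrong (show Set R3 from Ω) ν T d.F u u' G G' ∧ u 0 = d.u₀ ∧
          ∀ t ∈ Icc 0 T, ‖G t‖ ≤ L := by
  obtain ⟨C, Fr⟩ := exists_frame hΩ hb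
  constructor
  · intro H d hd hs hR
    have hd' := (adm_iff hΩ d).mpr hd
    obtain ⟨u, u1, z, z1, h1, h2, h3⟩ := H (toDat d) hd' ((symDat_iff hΩ h d).mpr hs) hR
    exact ⟨u, u1, z, z1, strong_of_str hΩ hT h1 (fun _ _ => rfl), h2, h3⟩
  · intro H d hd hs hR
    have hd' : (ofDat d).Admissible ν T := (adm_iff hΩ (ofDat d)).mp hd
    obtain ⟨u, u1, z, z1, h1, h2, h3⟩ := H (ofDat d) hd'
      ((symDat_iff hΩ h (ofDat d)).mp hs) hR
    exact ⟨u, u1, z, z1, str_of_strong hΩ Fr hT hd.force h1, h2, h3⟩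

/-- Strong solutions with the same data have the same gradients. -/
theorem unique_pub (hΩ : IsOpen Ω) (hb : Bornology.IsBounded Ω) (hν : 0 < ν) (hT : 0 < T)
    {d : Data (show Set R3 from Ω)} (hd : d.Admissible ν T) {u u1 v v1 : ℝ → L2V Ω}
    {z z1 y y1 : ℝ → L2M Ω} (S : IsStrong (show Set R3 from Ω) ν T d.F u u1 z z1)
    (h0 : u 0 = d.u₀) (S' : IsStrong (show Set R3 from Ω) ν T d.F v v1 y y1) (h0' : v 0 = d.u₀) :
    ∀ t ∈ Icc 0 T, z t = y t := by
  obtain ⟨C, Fr⟩ := exists_frame hΩ hb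
  have hd' := (adm_iff hΩ d).mpr hd
  have hF : FH T (toDat d).F (toDat d).F1 := hd'.force
  have k1 : Str (graphW Ω) tensL ν T (toDat d).F u u1 z z1 := str_of_strong hΩ Fr hT hF S
  have k2 : Str (graphW Ω) tensL ν T (toDat d).F v v1 y y1 := str_of_strong hΩ Fr hT hF S'
  intro t ht
  have e1 := str_unique Pool.Agent.W503.TQ.proof_uni Fr hν hT hT le_rfl
    (prim_cont hF.memLp hF.prim) k1 k2 (h0'.trans h0.symm) t ht
  have e2 := k1.mem t ht
  rw [e1] at e2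
  exact grad_unique Fr e2 (k2.mem t ht)

theorem rotInv_of (h : Inv α Ω) : RotInv α (show Set R3 from Ω) := by
  intro x hx
  show (rot α x : E3) ∈ Ω
  rw [rot_eq]
  exact (h x).mpr hx

theorem inv_of_rotInv {k : ℕ} (hk : 0 < k) (h : RotInv (2 * Real.pi / k) (show Set R3 from Ω)) :
    Inv (2 * Real.pi / k) Ω := inv_of hk fun x hx => by
  have h1 : (rot (2 * Real.pi / k) x : E3) ∈ Ω := h x hx
  rwa [rot_eq] at h1

theorem inv_all (h : ∀ α, RotInv α (show Set R3 from Ω)) : ∀ α, Inv α Ω := by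
  intro α x
  constructor
  · intro hx
    have h1 : (rot (-α) (rotF α x) : E3) ∈ Ω := h (-α) _ hx
    rwa [rot_eq, rotF_neg'] at h1
  · intro hx
    have h1 : (rot α x : E3) ∈ Ω := h α _ hx
    rwa [rot_eq] at h1

theorem offAxis_eq (δ : ℝ) : offAxis (show Set R3 from Ω) δ = (show Set R3 from Oc Ω δ) := by
  ext x
  have h : axisSq x = rr x := axisSq_eq x
  constructor
  · rintro ⟨h1, h2⟩
    rw [h] at h2
    exact ⟨h1, h2⟩
  · rintro ⟨h1, h2⟩
    refine ⟨h1, ?_⟩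
    rw [h]
    exact h2

theorem rr_rotF (α : ℝ) (x : E3) : rr (rotF α x) = rr x := by
  unfold rr
  rw [rotF_0, rotF_1]
  have := Real.sin_sq_add_cos_sq α
  linear_combination (x 0 ^ 2 + x 1 ^ 2) * this

theorem Oc_inv {δ : ℝ} (h : Inv α Ω) : Inv α (Oc Ω δ) := by
  intro x
  constructor
  · rintro ⟨h1, h2⟩
    exact ⟨(h x).mp h1, by rwa [rr_rotF] at h2⟩
  · rintro ⟨h1, h2⟩
    exact ⟨(h x).mpr h1, by rwa [rr_rotF]⟩

/-- Uniform bounds for some high orders of the symmetry give the axisymmetric regularity. -/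
theorem freq_one (hΩ : IsOpen Ω) (hb : Bornology.IsBounded Ω) (h : ∀ α, Inv α Ω)
    (hν : 0 < ν) (hT : 0 < T) {R : ℝ} (hR : 0 ≤ R) {R' L : ℝ} (hR' : R < R')
    (H : ∀ ε : ℝ, 0 < ε → ∀ N : ℕ, ∃ k : ℕ, N < k ∧ ∃ (Ω' : Set E3) (hΩ' : IsOpen Ω'),
      Oc Ω ε ⊆ Ω' ∧ Ω' ⊆ Ω ∧ ∃ hi : Inv (2 * Real.pi / k) Ω',
      RegSym (graphW Ω') tensL (UI hΩ'.measurableSet hi) (VI hΩ'.measurableSet hi) ν T R' L) :
    GoodSym (graphW Ω) tensL (UI hΩ.measurableSet (h 1)) (VI hΩ.measurableSet (h 1)) ν T R := by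
  have hP : ∀ n : ℕ, ∃ k : ℕ, n < k ∧ ∃ (Ω' : Set E3) (hΩ' : IsOpen Ω'),
      Oc Ω (1 / ((n : ℝ) + 1)) ⊆ Ω' ∧ Ω' ⊆ Ω ∧ ∃ hi : Inv (2 * Real.pi / k) Ω',
      RegSym (graphW Ω') tensL (UI hΩ'.measurableSet hi) (VI hΩ'.measurableSet hi) ν T R' L :=
    fun n => H _ (by positivity) n
  choose k hk Ωn hΩn hsup hsub hi hreg using hP
  have hkl : Tendsto k atTop atTop :=
    tendsto_atTop_mono (fun n => (hk n).le) tendsto_id
  obtain ⟨j, hj⟩ := angle_lim hkl
  have hM := mos_rot hΩ hb h (Ωn := Ωn) (δ := fun n : ℕ => 1 / ((n : ℝ) + 1))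
    (fun n => by positivity) tendsto_one_div_add_atTop_nhds_zero_nat hsub hsup hj hi
  obtain ⟨c, hc, hU⟩ := Pool.Agent.W52.TQ.proof_univ
  obtain ⟨C, Fr0⟩ := exists_frame hΩ hb
  have key := transfer_abs (ν := ν) (T := T) Fr0 (hU Ω hΩ) invW_le
    (invW_closed (graphW_closed Ω)) hν hT (rellich_W hΩ hb)
    (fun n => invW_le.trans (extW_le (hsub n)))
    (fun n => invW_closed (extW_closed Ω (Ωn n))) hM hR
  refine (goodSym_self hΩ hb (h 1) hν hT R).mpr ?_
  have key2 := (key.out 0 1).2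
  refine key2 ⟨R', hR', L, Eventually.of_forall fun n => ?_⟩
  exact (regSym_ext hΩ hb (hΩn n) (hsub n) (h _) (hi n) hν hT R' L).mp (hreg n)

theorem main (hΩ : IsOpen Ω) (hb : Bornology.IsBounded Ω)
    (h : ∀ α, RotInv α (show Set R3 from Ω)) (hν : 0 < ν) (hT : 0 < T) {R : ℝ} (hR : 0 ≤ R) :
    List.TFAE [
      ∀ d : Data (show Set R3 from Ω), d.Admissible ν T → Axisymmetric T d → d.size T ≤ R →
        d.Regular ν T,
      ∃ R' : ℝ, R < R' ∧ ∃ L δ : ℝ, 0 < δ ∧ ∃ k0 : ℕ, ∀ k : ℕ, k0 < k → ∀ Ω' : Set R3,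
        IsOpen Ω' → offAxis (show Set R3 from Ω) δ ⊆ Ω' → Ω' ⊆ (show Set R3 from Ω) →
        RotInv (2 * Real.pi / k) Ω' → RegularInvariant Ω' (2 * Real.pi / k) ν T R' L,
      ∃ R' : ℝ, R < R' ∧ ∃ L : ℝ, ∀ ε : ℝ, 0 < ε → ∀ N : ℕ, ∃ k : ℕ, N < k ∧ ∃ Ω' : Set R3,
        IsOpen Ω' ∧ offAxis (show Set R3 from Ω) ε ⊆ Ω' ∧ Ω' ⊆ (show Set R3 from Ω) ∧
        RotInv (2 * Real.pi / k) Ω' ∧ RegularInvariant Ω' (2 * Real.pi / k) ν T R' L,
      ∃ R' : ℝ, R < R' ∧ ∃ L : ℝ, ∀ ε : ℝ, 0 < ε → ∃ δ : ℝ, 0 < δ ∧ δ < ε ∧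
        ∀ d : Data (offAxis (show Set R3 from Ω) δ), d.Admissible ν T → Axisymmetric T d →
          d.size T ≤ R' → ∀ u u' G G', IsStrong (offAxis (show Set R3 from Ω) δ) ν T d.F u u' G G' →
            u 0 = d.u₀ → ∀ t ∈ Icc 0 T, ‖G t‖ ≤ L] := by
  have hi := inv_all h
  tfae_have 1 → 2 := by
    intro H
    obtain ⟨R', h1, L, δ, h2, k0, h3⟩ := one_two hΩ hb hi hν hT hR
      ((goodSym_pub hΩ hb hi hT R).mpr H)
    refine ⟨R', h1, L, δ, h2, k0, fun k hk Ω' hΩ' h4 h5 h6 => ?_⟩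
    have hk0 : 0 < k := by omega
    have hi' : Inv (2 * Real.pi / k) (show Set E3 from Ω') := inv_of_rotInv hk0 h6
    have h4' : Oc Ω δ ⊆ (show Set E3 from Ω') := by
      intro x hx
      refine h4 ?_
      rw [offAxis_eq]
      exact hx
    exact (regSym_pub hΩ' (hb.subset h5) hi' hT R' L).mp (h3 k hk Ω' hΩ' h4' h5 hi')
  tfae_have 2 → 3 := by
    rintro ⟨R', h1, L, δ0, h2, k0, h3⟩
    refine ⟨R', h1, L, fun ε hε N => ⟨max N k0 + 1, by omega, (show Set R3 from Ω), hΩ,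
      fun x hx => hx.1, subset_rfl, h _, ?_⟩⟩
    exact h3 (max N k0 + 1) (by omega) _ hΩ (fun x hx => hx.1) subset_rfl (h _)
  tfae_have 3 → 1 := by
    rintro ⟨R', h1, L, h3⟩
    refine (goodSym_pub hΩ hb hi hT R).mp (freq_one hΩ hb hi hν hT hR h1 (L := L) ?_)
    intro ε hε N
    obtain ⟨k, hk, Ω', hΩ', h4, h5, h6, h7⟩ := h3 ε hε N
    have hi' : Inv (2 * Real.pi / k) (show Set E3 from Ω') := inv_of_rotInv (by omega) h6
    refine ⟨k, hk, Ω', hΩ', ?_, h5, hi', ?_⟩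
    · intro x hx
      refine h4 ?_
      rw [offAxis_eq]
      exact hx
    · exact (regSym_pub hΩ' (hb.subset h5) hi' hT R' L).mpr h7
  tfae_have 2 → 4 := by
    rintro ⟨R', h1, L, δ0, h2, k0, h3⟩
    refine ⟨R', h1, L, fun ε hε => ⟨min ε δ0 / 2, by positivity, ?_, ?_⟩⟩
    · have := min_le_left ε δ0
      linarith
    · set δ : ℝ := min ε δ0 / 2 with hδ
      have hδ0 : 0 < δ := by positivity
      have hδ1 : δ ≤ δ0 := by
        have := min_le_right ε δ0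
        linarith
      rw [offAxis_eq]
      intro d hd hs hR' u u' G G' S h0 t ht
      have hOo := Oc_open hΩ δ
      have hOb : Bornology.IsBounded (Oc Ω δ) := hb.subset (Oc_sub Ω δ)
      obtain ⟨v, v', D, D', k1, k2, k3⟩ := h3 (k0 + 1) (by omega) (show Set R3 from Oc Ω δ) hOo
        (by
          rw [offAxis_eq]
          exact Oc_mono Ω hδ0.le hδ1) (Oc_sub Ω δ)
        (rotInv_of (Oc_inv (hi _))) d hd (hs _) hR'
      rw [unique_pub hOo hOb hν hT hd S h0 k1 k2 t ht]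
      exact k3 t ht
  tfae_have 4 → 1 := by
    rintro ⟨R', h1, L, h3⟩
    refine (goodSym_pub hΩ hb hi hT R).mp ?_
    refine three_one hΩ hb hi (fun δ => Oc_inv (hi 1)) hν hT hR h1 (L := L) ?_
    intro ε hε
    obtain ⟨δ, hδ0, hδ1, h4⟩ := h3 ε hε
    refine ⟨δ, hδ0, hδ1, ?_⟩
    rw [offAxis_eq] at h4
    have hOo := Oc_open hΩ δ
    have hOb : Bornology.IsBounded (Oc Ω δ) := hb.subset (Oc_sub Ω δ)
    have hOi : ∀ α, Inv α (Oc Ω δ) := fun α => Oc_inv (hi α)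
    refine (regSym_pub hOo hOb (Oc_inv (hi 1)) hT R' L).mpr ?_
    intro d hd hs hR'
    have hd' := (adm_iff hOo d).mpr hd
    have hsd := (symDat_iff hOo (Oc_inv (δ := δ) (hi 1)) d).mpr hs
    have hax : Axisymmetric T d := (axi_iff hOo hOi d).mp hsd
    obtain ⟨C, Fr⟩ := exists_frame hOo hOb
    obtain ⟨u, u1, z, z1, k1, k2⟩ := axi_exists hOo hOb hOi hδ0 (fun x hx => hx.2) hν hT hd' hsd
    have k3 : IsStrong (show Set R3 from Oc Ω δ) ν T d.F u u1 z z1 :=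
      strong_of_str hOo hT k1 (fun _ _ => rfl)
    exact ⟨u, u1, z, z1, k3, k2, h4 d hd hax hR' u u1 z z1 k3 k2⟩
  tfae_finish

/-- Existence away from the axis. -/
theorem exists_pub (hΩ : IsOpen Ω) (hb : Bornology.IsBounded Ω)
    (h : ∀ α, RotInv α (show Set R3 from Ω)) (hν : 0 < ν) (hT : 0 < T) {δ : ℝ} (hδ0 : 0 < δ) :
    ∀ d : Data (offAxis (show Set R3 from Ω) δ), d.Admissible ν T → Axisymmetric T d →
      d.Regular ν T := by
  have hi := inv_all h
  rw [offAxis_eq]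
  have hOo := Oc_open hΩ δ
  have hOb : Bornology.IsBounded (Oc Ω δ) := hb.subset (Oc_sub Ω δ)
  have hOi : ∀ α, Inv α (Oc Ω δ) := fun α => Oc_inv (hi α)
  intro d hd hs
  have hd' := (adm_iff hOo d).mpr hd
  have hsd := (axi_iff hOo hOi d).mpr hs
  obtain ⟨u, u1, z, z1, k1, k2⟩ := axi_exists hOo hOb hOi hδ0 (fun x hx => hx.2) hν hT hd' hsd
  exact ⟨u, u1, z, z1, strong_of_str hOo hT k1 (fun _ _ => rfl), k2⟩

end Pool.Agent.H303.RS
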