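import Pool.Agent.H303.RS.Sym
import Pool.Agent.H303.DS.Ext
import Pool.Graph.R_seed8.Y303.NF.Pub

/-!
The action of the rotations about the third axis: continuity and extension by zero.
-/

set_option autoImplicit false
set_option linter.unusedSectionVars false

open MeasureTheory Set Filter Topology
open scoped InnerProductSpace ENNReal

namespace Pool.Agent.H303.RS

open H772R2.NS
open Pool.Agent.Y303.NF
open Pool.Agent.H303.DS

variable {Ω D : Set E3} {α β : ℝ}

/-- Rotations commute with the extension by zero. -/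
theorem ext_UI (hm : MeasurableSet Ω) (hD : MeasurableSet D) (h : Ω ⊆ D) (iΩ : Inv α Ω)
    (iD : Inv α D) (v : L2V Ω) :
    ext E3 hm h (UI hm iΩ v) = UI hD iD (ext E3 hm h v) := by
  apply Lp.ext
  filter_upwards [ext_coe hm h (UI hm iΩ v), ae_ind (D := D) hm (UI_coe hm iΩ v),
    UI_coe hD iD (ext E3 hm h v),
    (mp hD iD).quasiMeasurePreserving.ae (ext_coe hm h v)] with x k1 k2 k3 k4
  have k4' : (ext E3 hm h v : E3 → E3) (rotF (-α) x) = Ω.indicator v (rotF (-α) x) := k4
  rw [k1, k2, k3, k4']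
  by_cases hx : x ∈ Ω
  · rw [indicator_of_mem hx, indicator_of_mem ((iΩ.neg x).mpr hx)]
  · rw [indicator_of_notMem hx, indicator_of_notMem fun hc => hx ((iΩ.neg x).mp hc)]
    exact (map_zero (rotE α)).symm

theorem ext_VI (hm : MeasurableSet Ω) (hD : MeasurableSet D) (h : Ω ⊆ D) (iΩ : Inv α Ω)
    (iD : Inv α D) (v : L2M Ω) :
    ext M3 hm h (VI hm iΩ v) = VI hD iD (ext M3 hm h v) := by
  apply Lp.ext
  filter_upwards [ext_coe hm h (VI hm iΩ v), ae_ind (D := D) hm (VI_coe hm iΩ v),
    VI_coe hD iD (ext M3 hm h v),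
    (mp hD iD).quasiMeasurePreserving.ae (ext_coe hm h v)] with x k1 k2 k3 k4
  have k4' : (ext M3 hm h v : E3 → M3) (rotF (-α) x) = Ω.indicator v (rotF (-α) x) := k4
  rw [k1, k2, k3, k4']
  by_cases hx : x ∈ Ω
  · rw [indicator_of_mem hx, indicator_of_mem ((iΩ.neg x).mpr hx)]
  · rw [indicator_of_notMem hx, indicator_of_notMem fun hc => hx ((iΩ.neg x).mp hc)]
    exact (map_zero (cnjI α)).symm

theorem UI_add (hm : MeasurableSet Ω) (h : Inv α Ω) (h' : Inv β Ω) (h2 : Inv (α + β) Ω)
    (v : L2V Ω) : UI hm h (UI hm h' v) = UI hm h2 v := by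
  apply Lp.ext
  filter_upwards [UI_coe hm h (UI hm h' v),
    (mp hm h).quasiMeasurePreserving.ae (UI_coe hm h' v), UI_coe hm h2 v] with x k1 k2 k3
  have k2' : (UI hm h' v : E3 → E3) (rotF (-α) x) = rotF β (v (rotF (-β) (rotF (-α) x))) := k2
  rw [k1, k2', k3, rotF_rotF, rotF_rotF]
  congr 3
  ring

theorem VI_add (hm : MeasurableSet Ω) (h : Inv α Ω) (h' : Inv β Ω) (h2 : Inv (α + β) Ω)
    (v : L2M Ω) : VI hm h (VI hm h' v) = VI hm h2 v := by
  apply Lp.ext
  filter_upwards [VI_coe hm h (VI hm h' v),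
    (mp hm h).quasiMeasurePreserving.ae (VI_coe hm h' v), VI_coe hm h2 v] with x k1 k2 k3
  have k2' : (VI hm h' v : E3 → M3) (rotF (-α) x) = cnjF β (v (rotF (-β) (rotF (-α) x))) := k2
  rw [k1, k2', k3, cnjF_rot, rotF_rotF]
  congr 3
  ring

theorem rotE_cont : Continuous fun α : ℝ =>
    ((rotE α).toLinearIsometry.toContinuousLinearMap : E3 →L[ℝ] E3) := by
  rw [continuous_clm_apply]
  intro y
  show Continuous fun α => rotF α y
  unfold rotF
  fun_prop

theorem Q_cont (i j : Fin 3) : Continuous fun α : ℝ => Q α i j := by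
  have h : Continuous fun α => rotF α (ev j) := by
    unfold rotF
    fun_prop
  exact (EuclideanSpace.proj (𝕜 := ℝ) i : E3 →L[ℝ] ℝ).continuous.comp h

theorem cnjI_cont : Continuous fun α : ℝ => ((cnjI α).toContinuousLinearMap : M3 →L[ℝ] M3) := by
  rw [continuous_clm_apply]
  intro y
  show Continuous fun α => cnjF α y
  unfold cnjF
  have h : Continuous fun α : ℝ => fun p : Fin 3 × Fin 3 =>
      ∑ k, ∑ l, Q α p.1 k * Q α p.2 l * y (k, l) :=
    continuous_pi fun p => continuous_finsetSum _ fun k _ => continuous_finsetSum _ fun l _ =>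
      ((Q_cont _ _).mul (Q_cont _ _)).mul continuous_const
  exact (PiLp.continuous_toLp 2 _).comp h

/-- the rotation as a continuous map -/
noncomputable def rotC (α : ℝ) : C(E3, E3) := ⟨rotE α, (rotE α).continuous⟩

theorem rotC_cont : Continuous fun α : ℝ => rotC α := by
  refine ContinuousMap.continuous_of_continuous_uncurry _ ?_
  show Continuous fun p : ℝ × E3 => rotF p.1 p.2
  unfold rotF
  fun_prop

theorem valI_tendsto {X : Type} [NormedAddCommGroup X] [InnerProductSpace ℝ X] {μ : Measure E3}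
    {A : ℝ → X →ₗᵢ[ℝ] X} (hA : Continuous fun α => (A α).toContinuousLinearMap)
    {v : ℝ → Lp X 2 μ} (hv : Continuous v) : Continuous fun α => valI (A α) (v α) := by
  rw [continuous_iff_continuousAt]
  intro a
  have h1 : ∀ b, ‖valI (A b) (v b) - valI (A a) (v a)‖
      ≤ ‖(A b).toContinuousLinearMap - (A a).toContinuousLinearMap‖ * ‖v a‖ + ‖v b - v a‖ := by
    intro b
    have e : valI (A b) (v b) - valI (A a) (v a)
        = valI (A b) (v b - v a) + (((A b).toContinuousLinearMap
          - (A a).toContinuousLinearMap).compLpL 2 μ) (v a) := by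
      have e1 : (((A b).toContinuousLinearMap - (A a).toContinuousLinearMap).compLpL 2 μ) (v a)
          = valI (A b) (v a) - valI (A a) (v a) := by
        apply Lp.ext
        filter_upwards [ContinuousLinearMap.coeFn_compLpL
          ((A b).toContinuousLinearMap - (A a).toContinuousLinearMap) (v a),
          Lp.coeFn_sub (valI (A b) (v a)) (valI (A a) (v a)), valI_coe (A b) (v a),
          valI_coe (A a) (v a)] with x k1 k2 k3 k4
        rw [k1, k2, Pi.sub_apply, k3, k4]
        rfl
      rw [e1, map_sub]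
      abel
    rw [e]
    refine (norm_add_le _ _).trans ?_
    rw [(valI (A b)).norm_map, add_comm]
    gcongr
    exact ContinuousLinearMap.norm_compLp_le _ _
  have h2 : Tendsto (fun b => ‖(A b).toContinuousLinearMap - (A a).toContinuousLinearMap‖ * ‖v a‖
      + ‖v b - v a‖) (𝓝 a) (𝓝 0) := by
    have e1 : Tendsto (fun b => ‖(A b).toContinuousLinearMap - (A a).toContinuousLinearMap‖)
        (𝓝 a) (𝓝 0) := by
      have := ((hA.tendsto a).sub_const (A a).toContinuousLinearMap).norm
      rwa [sub_self, norm_zero] at this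
    have e2 : Tendsto (fun b => ‖v b - v a‖) (𝓝 a) (𝓝 0) := by
      have := ((hv.tendsto a).sub_const (v a)).norm
      rwa [sub_self, norm_zero] at this
    have := (e1.mul_const ‖v a‖).add e2
    rwa [zero_mul, zero_add] at this
  rw [ContinuousAt, tendsto_iff_norm_sub_tendsto_zero]
  exact squeeze_zero (fun _ => norm_nonneg _) h1 h2

/-- The rotations act continuously. -/
theorem UI_cont (hm : MeasurableSet Ω) (h : ∀ α, Inv α Ω) (v : L2V Ω) :
    Continuous fun α => UI hm (h α) v := by
  refine valI_tendsto (A := fun α => (rotE α).toLinearIsometry) rotE_cont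
    (v := fun α => Lp.compMeasurePreservingₗᵢ ℝ (rotE (-α)) (mp hm (h α)) v) ?_
  have h1 := Continuous.compMeasurePreservingLp (E := E3) (p := 2) (f := fun _ : ℝ => v)
    (g := fun α : ℝ => rotC (-α)) continuous_const (rotC_cont.comp continuous_neg)
    (fun α => mp hm (h α)) (by norm_num)
  exact h1

theorem VI_cont (hm : MeasurableSet Ω) (h : ∀ α, Inv α Ω) (v : L2M Ω) :
    Continuous fun α => VI hm (h α) v := by
  refine valI_tendsto (A := fun α => cnjI α) cnjI_cont
    (v := fun α => Lp.compMeasurePreservingₗᵢ ℝ (rotE (-α)) (mp hm (h α)) v) ?_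
  have h1 := Continuous.compMeasurePreservingLp (E := M3) (p := 2) (f := fun _ : ℝ => v)
    (g := fun α : ℝ => rotC (-α)) continuous_const (rotC_cont.comp continuous_neg)
    (fun α => mp hm (h α)) (by norm_num)
  exact h1

/-- A closed set of angles which is a group and contains `1` and `2π` contains all angles. -/
theorem all_angles {S : Set ℝ} (hc : IsClosed S) (h0 : (0 : ℝ) ∈ S)
    (hadd : ∀ a ∈ S, ∀ b ∈ S, a + b ∈ S) (hneg : ∀ a ∈ S, -a ∈ S) (h1 : (1 : ℝ) ∈ S)
    (h2 : (2 * Real.pi) ∈ S) (a : ℝ) : a ∈ S := by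
  have hd : Dense (AddSubgroup.closure {2 * Real.pi, 1} : Set ℝ) := by
    rw [dense_addSubgroupClosure_pair_iff, div_one]
    have := irrational_pi.ratCast_mul (q := 2) (by norm_num)
    exact_mod_cast this
  let G : AddSubgroup ℝ :=
    { carrier := S
      add_mem' := fun ha hb => hadd _ ha _ hb
      zero_mem' := h0
      neg_mem' := fun ha => hneg _ ha }
  have hle : AddSubgroup.closure {2 * Real.pi, 1} ≤ G := by
    rw [AddSubgroup.closure_le]
    rintro x (rfl | hx)
    · exact h2
    · rw [mem_singleton_iff.1 hx]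
      exact h1
  have h3 : closure (AddSubgroup.closure {2 * Real.pi, 1} : Set ℝ) ⊆ S :=
    closure_minimal hle hc
  rw [hd.closure_eq] at h3
  exact h3 (mem_univ a)

end Pool.Agent.H303.RS
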