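import Pool.Agent.H303.DS.Emb
import Pool.Graph.R_seed8.Y303.NF.Sym
import Mathlib.Analysis.InnerProductSpace.MeanErgodic

/-!
Symmetric data and the subspace of the symmetric fields.
-/

set_option autoImplicit false
set_option linter.unusedSectionVars false

open MeasureTheory Set Filter Topology
open scoped InnerProductSpace

namespace Pool.Agent.H303.RS

open H772R2.NSR (Frame prim_cont grad_unique)
open Pool.Agent.W795.TQ
open Pool.Agent.Y303.NF (Symm)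

open Pool.Agent.X187.NSC hiding fam_close weak_limit core open_ultra
open Pool.Agent.H303.DS

section fix

variable {H : Type} [NormedAddCommGroup H] [InnerProductSpace ℝ H] [CompleteSpace H]
  {U : H →ₗᵢ[ℝ] H}

/-- the projection onto the fixed vectors -/
noncomputable def fx (U : H →ₗᵢ[ℝ] H) : H →L[ℝ] H :=
  (U.toContinuousLinearMap.eqLocus (1 : H →L[ℝ] H)).starProjection

theorem fx_lim (x : H) :
    Tendsto (fun n => birkhoffAverage ℝ U _root_.id n x) atTop (𝓝 (fx U x)) :=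
  ContinuousLinearMap.tendsto_birkhoffAverage_orthogonalProjection U.toContinuousLinearMap
    U.norm_toContinuousLinearMap_le x

theorem fx_fix (x : H) : U (fx U x) = fx U x := by
  have h : fx U x ∈ U.toContinuousLinearMap.eqLocus (1 : H →L[ℝ] H) :=
    Submodule.starProjection_apply_mem _ _
  exact h

theorem fx_of_fix {x : H} (h : U x = x) : fx U x = x := by
  refine Submodule.starProjection_eq_self_iff.2 ?_
  exact h

theorem fx_norm (x : H) : ‖fx U x‖ ≤ ‖x‖ := Submodule.norm_starProjection_apply_le _ _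

theorem fx_inner {a : H} (h : U a = a) (x : H) : ⟪a, fx U x⟫_ℝ = ⟪a, x⟫_ℝ := by
  have ha : a ∈ U.toContinuousLinearMap.eqLocus (1 : H →L[ℝ] H) := h
  have h1 : ⟪x - fx U x, a⟫_ℝ = 0 := Submodule.starProjection_inner_eq_zero _ _ ha
  rw [inner_sub_left] at h1
  rw [real_inner_comm, real_inner_comm x a]
  linarith

theorem fx_inner' {a : H} (h : U a = a) (x : H) : ⟪fx U x, a⟫_ℝ = ⟪x, a⟫_ℝ := by
  rw [real_inner_comm, fx_inner h, real_inner_comm]

end fix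

variable {H K : Type} [NormedAddCommGroup H] [InnerProductSpace ℝ H] [CompleteSpace H]
  [NormedAddCommGroup K] [InnerProductSpace ℝ K] [CompleteSpace K]
  {W : Submodule ℝ (H × K)} {m : H → K} {C c ν T : ℝ} {U : H →ₗᵢ[ℝ] H} {V : K →ₗᵢ[ℝ] K}

omit [CompleteSpace H] [CompleteSpace K] in
theorem iter_mem (h : ∀ p ∈ W, (U p.1, V p.2) ∈ W) {p : H × K} (hp : p ∈ W) (j : ℕ) :
    (U^[j] p.1, V^[j] p.2) ∈ W := by
  induction j with
  | zero => exact hp
  | succ j ih =>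
    rw [Function.iterate_succ_apply', Function.iterate_succ_apply']
    exact h _ ih

omit [CompleteSpace H] [CompleteSpace K] in
theorem avg_mem (h : ∀ p ∈ W, (U p.1, V p.2) ∈ W) {p : H × K} (hp : p ∈ W) (n : ℕ) :
    (birkhoffAverage ℝ U _root_.id n p.1, birkhoffAverage ℝ V _root_.id n p.2) ∈ W := by
  have h1 : (∑ j ∈ Finset.range n, (U^[j] p.1, V^[j] p.2)) ∈ W :=
    Submodule.sum_mem _ fun j _ => iter_mem h hp j
  have h2 := W.smul_mem ((n : ℝ)⁻¹) h1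
  have e : (birkhoffAverage ℝ U _root_.id n p.1, birkhoffAverage ℝ V _root_.id n p.2)
      = (n : ℝ)⁻¹ • ∑ j ∈ Finset.range n, (U^[j] p.1, V^[j] p.2) := by
    refine Prod.ext ?_ ?_
    · rw [Prod.smul_fst, Prod.fst_sum]
      rfl
    · rw [Prod.smul_snd, Prod.snd_sum]
      rfl
  rw [e]
  exact h2

theorem fx_mem (hcl : IsClosed (W : Set (H × K))) (h : ∀ p ∈ W, (U p.1, V p.2) ∈ W) {p : H × K}
    (hp : p ∈ W) : (fx U p.1, fx V p.2) ∈ W :=
  hcl.mem_of_tendsto ((fx_lim (U := U) p.1).prodMk_nhds (fx_lim (U := V) p.2))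
    (Eventually.of_forall fun n => avg_mem h hp n)

theorem fx_fun (h : ∀ p ∈ W, (U p.1, V p.2) ∈ W) {f : K}
    (hf : ∀ p ∈ W, ⟪f, V p.2⟫_ℝ = ⟪f, p.2⟫_ℝ) {p : H × K} (hp : p ∈ W) :
    ⟪f, fx V p.2⟫_ℝ = ⟪f, p.2⟫_ℝ := by
  have h1 : ∀ j, ⟪f, V^[j] p.2⟫_ℝ = ⟪f, p.2⟫_ℝ := by
    intro j
    induction j with
    | zero => rfl
    | succ j ih =>
      rw [Function.iterate_succ_apply']
      exact (hf _ (iter_mem h hp j)).trans ih
  have h2 : Tendsto (fun n => ⟪f, birkhoffAverage ℝ V _root_.id n p.2⟫_ℝ) atTop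
      (𝓝 ⟪f, fx V p.2⟫_ℝ) := tendsto_const_nhds.inner (fx_lim (U := V) p.2)
  refine tendsto_nhds_unique h2 ?_
  refine tendsto_const_nhds.congr' ?_
  filter_upwards [eventually_gt_atTop 0] with n hn
  have hn' : (n : ℝ) ≠ 0 := by positivity
  show _ = ⟪f, (n : ℝ)⁻¹ • ∑ j ∈ Finset.range n, V^[j] p.2⟫_ℝ
  rw [inner_smul_right, inner_sum]
  simp only [h1]
  rw [Finset.sum_const, Finset.card_range, nsmul_eq_mul, ← mul_assoc, inv_mul_cancel₀ hn', one_mul]

/-- the symmetric elements of `W` -/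
def invW (W : Submodule ℝ (H × K)) (U : H →ₗᵢ[ℝ] H) (V : K →ₗᵢ[ℝ] K) : Submodule ℝ (H × K) where
  carrier := {p | p ∈ W ∧ U p.1 = p.1 ∧ V p.2 = p.2}
  zero_mem' := ⟨W.zero_mem, map_zero U, map_zero V⟩
  add_mem' := by
    rintro p q ⟨h1, h2, h3⟩ ⟨k1, k2, k3⟩
    refine ⟨W.add_mem h1 k1, ?_, ?_⟩
    · rw [Prod.fst_add, map_add, h2, k2]
    · rw [Prod.snd_add, map_add, h3, k3]
  smul_mem' := by
    rintro a p ⟨h1, h2, h3⟩
    refine ⟨W.smul_mem a h1, ?_, ?_⟩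
    · rw [Prod.smul_fst, map_smul, h2]
    · rw [Prod.smul_snd, map_smul, h3]

omit [CompleteSpace H] [CompleteSpace K] in
theorem mem_invW {p : H × K} : p ∈ invW W U V ↔ p ∈ W ∧ U p.1 = p.1 ∧ V p.2 = p.2 := Iff.rfl

omit [CompleteSpace H] [CompleteSpace K] in
theorem invW_le : invW W U V ≤ W := fun _ hp => hp.1

omit [CompleteSpace H] [CompleteSpace K] in
theorem invW_closed (hcl : IsClosed (W : Set (H × K))) : IsClosed (invW W U V : Set (H × K)) := by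
  have e : (invW W U V : Set (H × K)) = (W : Set (H × K)) ∩ ({p | U p.1 = p.1} ∩ {p | V p.2 = p.2}) :=
    rfl
  rw [e]
  exact hcl.inter ((isClosed_eq (U.continuous.comp continuous_fst) continuous_fst).inter
    (isClosed_eq (V.continuous.comp continuous_snd) continuous_snd))

theorem fx_mem_inv (hcl : IsClosed (W : Set (H × K))) (h : ∀ p ∈ W, (U p.1, V p.2) ∈ W)
    {p : H × K} (hp : p ∈ W) : (fx U p.1, fx V p.2) ∈ invW W U V :=
  ⟨fx_mem hcl h hp, fx_fix _, fx_fix _⟩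

/-- symmetric data -/
structure SymDat (W : Submodule ℝ (H × K)) (U : H →ₗᵢ[ℝ] H) (V : K →ₗᵢ[ℝ] K) (T : ℝ)
    (d : Dat H K) : Prop where
  x : U d.x = d.x
  F : ∀ t ∈ Icc 0 T, ∀ p ∈ W, ⟪d.F t, V p.2⟫_ℝ = ⟪d.F t, p.2⟫_ℝ

/-- regularity for the symmetric data -/
def RegSym (W : Submodule ℝ (H × K)) (m : H → K) (U : H →ₗᵢ[ℝ] H) (V : K →ₗᵢ[ℝ] K)
    (ν T R L : ℝ) : Prop :=
  ∀ d : Dat H K, Adm W m ν T d → SymDat W U V T d → d.size T ≤ R →
    ∃ (u u1 : ℝ → H) (z z1 : ℝ → K), Str W m ν T d.F u u1 z z1 ∧ u 0 = d.x ∧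
      ∀ t ∈ Icc 0 T, ‖z t‖ ≤ L

/-- regularity for the symmetric data, without a bound -/
def GoodSym (W : Submodule ℝ (H × K)) (m : H → K) (U : H →ₗᵢ[ℝ] H) (V : K →ₗᵢ[ℝ] K)
    (ν T R : ℝ) : Prop :=
  ∀ d : Dat H K, Adm W m ν T d → SymDat W U V T d → d.size T ≤ R → Good W m ν T d

/-- the projected data -/
noncomputable def prj (U : H →ₗᵢ[ℝ] H) (V : K →ₗᵢ[ℝ] K) (d : Dat H K) : Dat H K :=
  ⟨d.x, d.z, fun t => fx V (d.F t), fun t => fx V (d.F1 t), fx U d.g⟩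

theorem prj_adm (hcl : IsClosed (W : Set (H × K))) (Sy : Symm W m U V) {d : Dat H K}
    (hd : Adm (invW W U V) m ν T d) : Adm W m ν T (prj U V d) := by
  refine ⟨hd.mem.1, FH.map (fx V) hd.force, fun p hp => ?_⟩
  have h1 := hd.comp _ (fx_mem_inv hcl Sy.mem hp)
  show ⟪fx V (d.F 0) - ν • d.z + m d.x, p.2⟫_ℝ = ⟪fx U d.g, p.1⟫_ℝ
  have hz : V d.z = d.z := hd.mem.2.2
  have hx : U d.x = d.x := hd.mem.2.1
  have hm : V (m d.x) = m d.x := by
    have := Sy.eqv _ hd.mem.1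
    rw [← this]
    show m (U d.x) = m d.x
    rw [hx]
  have hz' : V (ν • d.z) = ν • d.z := by rw [map_smul, hz]
  have ha : V (fx V (d.F 0) - ν • d.z + m d.x) = fx V (d.F 0) - ν • d.z + m d.x := by
    rw [map_add, map_sub, fx_fix, hz', hm]
  rw [← fx_inner ha, ← fx_inner (fx_fix (U := U) d.g)]
  have e1 : ⟪fx U d.g, fx U p.1⟫_ℝ = ⟪d.g, fx U p.1⟫_ℝ := fx_inner' (fx_fix _) _
  have e2 : ⟪fx V (d.F 0) - ν • d.z + m d.x, fx V p.2⟫_ℝ
      = ⟪d.F 0 - ν • d.z + m d.x, fx V p.2⟫_ℝ := by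
    rw [inner_add_left, inner_sub_left, inner_add_left, inner_sub_left,
      fx_inner' (fx_fix p.2) (d.F 0)]
  rw [e1, e2]
  exact h1

theorem prj_sym {d : Dat H K} (hx : U d.x = d.x) : SymDat W U V T (prj U V d) where
  x := hx
  F := fun t _ p _ => by
    show ⟪fx V (d.F t), V p.2⟫_ℝ = ⟪fx V (d.F t), p.2⟫_ℝ
    conv_lhs => rw [← fx_fix (d.F t)]
    exact V.inner_map_map _ _

theorem prj_size (hT : 0 ≤ T) {d : Dat H K} (hF : FH T d.F d.F1) :
    (prj U V d).size T ≤ d.size T := by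
  show ‖d.z‖ ^ 2 + ‖fx V (d.F 0)‖ ^ 2 + (∫ s in (0 : ℝ)..T, ‖fx V (d.F1 s)‖ ^ 2)
      + ‖fx U d.g‖ ^ 2
    ≤ ‖d.z‖ ^ 2 + ‖d.F 0‖ ^ 2 + (∫ s in (0 : ℝ)..T, ‖d.F1 s‖ ^ 2) + ‖d.g‖ ^ 2
  have h2 := fx_norm (U := V) (d.F 0)
  have h3 := fx_norm (U := U) d.g
  have h4 : (∫ s in (0 : ℝ)..T, ‖fx V (d.F1 s)‖ ^ 2) ≤ ∫ s in (0 : ℝ)..T, ‖d.F1 s‖ ^ 2 := by
    rw [intervalIntegral.integral_of_le hT, intervalIntegral.integral_of_le hT]
    have i1 := (memLp_two_iff_integrable_sq_norm hF.memLp.aestronglyMeasurable).mp hF.memLp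
    have i2m := (FH.map (fx V) hF).memLp
    have i2 := (memLp_two_iff_integrable_sq_norm i2m.aestronglyMeasurable).mp i2m
    refine integral_mono i2 i1 fun s => ?_
    have := fx_norm (U := V) (d.F1 s)
    show ‖fx V (d.F1 s)‖ ^ 2 ≤ ‖d.F1 s‖ ^ 2
    gcongr
  gcongr

/-- A symmetric strong solution for the projected force is one in the symmetric subspace. -/
theorem str_inv (huni : S_uni) (Fr : Frame W m C) (Sy : Symm W m U V) (hν : 0 < ν) (hT : 0 < T)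
    {d : Dat H K} (hd : Adm (invW W U V) m ν T d) {u u1 : ℝ → H} {z z1 : ℝ → K}
    (S : Str W m ν T (prj U V d).F u u1 z z1) (h0 : u 0 = d.x) :
    Str (invW W U V) m ν T d.F u u1 z z1 := by
  have hx : U d.x = d.x := hd.mem.2.1
  have hs := prj_sym (W := W) (V := V) (T := T) hx
  have hF : FH T (prj U V d).F (prj U V d).F1 := FH.map (fx V) hd.force
  have hFc : ContinuousOn (prj U V d).F (Icc 0 T) := prim_cont hF.memLp hF.prim
  have hu0 : U (u 0) = u 0 := by rw [h0]; exact hx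
  have h1 := Pool.Agent.Y303.NF.str_unique huni Fr hν hT hT le_rfl hFc S (Sy.str hs.F S) hu0
  have h2 := Sy.inv huni Fr hν hT hFc hs.F S hu0
  have hmem : ∀ t ∈ Icc 0 T, (u t, z t) ∈ invW W U V := fun t ht => by
    have hUu : U (u t) = u t := (h1 t ht).symm
    refine ⟨S.mem t ht, hUu, ?_⟩
    have h3 := Sy.mem _ (S.mem t ht)
    simp only [hUu] at h3
    exact grad_unique Fr h3 (S.mem t ht)
  refine ⟨hmem, ?_, S.bd, S.u1m, S.z1m, S.pu, S.pz, fun p hp t ht => ?_, fun t ht => ?_⟩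
  · filter_upwards [h2] with t ht
    exact ht
  · rw [S.weak p hp.1 t ht]
    refine intervalIntegral.integral_congr fun s _ => ?_
    show ⟪fx V (d.F s) - ν • z s + m (u s), p.2⟫_ℝ = ⟪d.F s - ν • z s + m (u s), p.2⟫_ℝ
    rw [inner_add_left, inner_sub_left, inner_add_left, inner_sub_left,
      fx_inner' hp.2.2 (d.F s)]
  · rw [S.energy t ht]
    congr 1
    refine intervalIntegral.integral_congr fun s hs => ?_
    rw [uIcc_of_le ht.1] at hs
    exact fx_inner' (hmem s ⟨hs.1, hs.2.trans ht.2⟩).2.2 (d.F s)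

/-- A strong solution in the symmetric subspace with a symmetric force is a strong solution. -/
theorem str_full (hcl : IsClosed (W : Set (H × K))) (Sy : Symm W m U V) {F : ℝ → K}
    (hFs : ∀ t ∈ Icc 0 T, ∀ p ∈ W, ⟪F t, V p.2⟫_ℝ = ⟪F t, p.2⟫_ℝ)
    {u u1 : ℝ → H} {z z1 : ℝ → K} (S : Str (invW W U V) m ν T F u u1 z z1) :
    Str W m ν T F u u1 z z1 := by
  refine ⟨fun t ht => (S.mem t ht).1, ?_, S.bd, S.u1m, S.z1m, S.pu, S.pz, fun p hp t ht => ?_,
    S.energy⟩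
  · filter_upwards [S.mem1] with t ht
    exact ht.1
  · have h1 := S.weak _ (fx_mem_inv hcl Sy.mem hp) t ht
    have hT0 : (0 : ℝ) ∈ Icc 0 T := ⟨le_rfl, ht.1.trans ht.2⟩
    have hut : U (u t - u 0) = u t - u 0 := by
      rw [map_sub, (S.mem t ht).2.1, (S.mem 0 hT0).2.1]
    rw [← fx_inner hut]
    refine h1.trans ?_
    refine intervalIntegral.integral_congr fun s hs => ?_
    rw [uIcc_of_le ht.1] at hs
    have hsT : s ∈ Icc 0 T := ⟨hs.1, hs.2.trans ht.2⟩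
    show ⟪F s - ν • z s + m (u s), fx V p.2⟫_ℝ = ⟪F s - ν • z s + m (u s), p.2⟫_ℝ
    have hz : V (z s) = z s := (S.mem s hsT).2.2
    have hm : V (m (u s)) = m (u s) := by
      have h3 := Sy.eqv _ (S.mem s hsT).1
      rw [← h3]
      show m (U (u s)) = m (u s)
      rw [(S.mem s hsT).2.1]
    rw [inner_add_left, inner_sub_left, inner_add_left, inner_sub_left, real_inner_smul_left,
      real_inner_smul_left, fx_inner hz, fx_inner hm, fx_fun Sy.mem (hFs s hsT) hp]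

theorem adm_inv (Fr : Frame W m C) (Sy : Symm W m U V) {d : Dat H K} (hd : Adm W m ν T d)
    (hx : U d.x = d.x) : Adm (invW W U V) m ν T d := by
  refine ⟨⟨hd.mem, hx, ?_⟩, hd.force, fun p hp => hd.comp p hp.1⟩
  have h3 := Sy.mem _ hd.mem
  simp only [hx] at h3
  exact grad_unique Fr h3 hd.mem

theorem regSym_iff (huni : S_uni) (Fr : Frame W m C) (hcl : IsClosed (W : Set (H × K)))
    (Sy : Symm W m U V) (hν : 0 < ν) (hT : 0 < T) (R L : ℝ) :
    RegSym W m U V ν T R L ↔ RegB (invW W U V) m ν T R L := by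
  constructor
  · intro h d hd hR
    obtain ⟨u, u1, z, z1, h1, h2, h3⟩ := h (prj U V d) (prj_adm hcl Sy hd)
      (prj_sym hd.mem.2.1) ((prj_size hT.le hd.force).trans hR)
    exact ⟨u, u1, z, z1, str_inv huni Fr Sy hν hT hd h1 h2, h2, h3⟩
  · intro h d hd hs hR
    obtain ⟨u, u1, z, z1, h1, h2, h3⟩ := h d (adm_inv Fr Sy hd hs.x) hR
    exact ⟨u, u1, z, z1, str_full hcl Sy hs.F h1, h2, h3⟩

theorem goodSym_iff (huni : S_uni) (Fr : Frame W m C) (hcl : IsClosed (W : Set (H × K)))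
    (Sy : Symm W m U V) (hν : 0 < ν) (hT : 0 < T) (R : ℝ) :
    GoodSym W m U V ν T R ↔
      ∀ d : Dat H K, Adm (invW W U V) m ν T d → d.size T ≤ R → Good (invW W U V) m ν T d := by
  constructor
  · intro h d hd hR
    obtain ⟨u, u1, z, z1, h1, h2⟩ := h (prj U V d) (prj_adm hcl Sy hd)
      (prj_sym hd.mem.2.1) ((prj_size hT.le hd.force).trans hR)
    exact ⟨u, u1, z, z1, str_inv huni Fr Sy hν hT hd h1 h2, h2⟩
  · intro h d hd hs hR
    obtain ⟨u, u1, z, z1, h1, h2⟩ := h d (adm_inv Fr Sy hd hs.x) hR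
    exact ⟨u, u1, z, z1, str_full hcl Sy hs.F h1, h2⟩

/-- Embeddings which commute with the symmetries restrict to the symmetric subspaces. -/
theorem emb_inv {H' K' : Type} [NormedAddCommGroup H'] [InnerProductSpace ℝ H'] [CompleteSpace H']
    [NormedAddCommGroup K'] [InnerProductSpace ℝ K'] [CompleteSpace K']
    {W' : Submodule ℝ (H' × K')} {m' : H' → K'} {U' : H' →ₗᵢ[ℝ] H'} {V' : K' →ₗᵢ[ℝ] K'}
    {eH : H →L[ℝ] H'} {rH : H' →L[ℝ] H} {eK : K →L[ℝ] K'} {rK : K' →L[ℝ] K}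
    (E : Emb W m W' m' eH rH eK rK) (hU : ∀ x, eH (U x) = U' (eH x))
    (hV : ∀ x, eK (V x) = V' (eK x)) :
    Emb (invW W U V) m (invW W' U' V') m' eH rH eK rK := by
  refine ⟨E.adjH, E.adjK, E.reH, E.reK, fun p hp => ⟨E.fwd p hp.1, ?_, ?_⟩,
    fun p hp => ⟨E.bwd p hp.1, ?_, ?_⟩, fun p hp => E.erH p hp.1, fun p hp => E.erK p hp.1,
    fun p hp => E.mm p hp.1⟩
  · rw [← hU, hp.2.1]
  · rw [← hV, hp.2.2]
  · show U (rH p.1) = rH p.1
    have h1 : eH (U (rH p.1)) = eH (rH p.1) := by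
      rw [hU, E.erH p hp.1, hp.2.1]
    have h2 := congrArg rH h1
    rwa [E.reH, E.reH] at h2
  · show V (rK p.2) = rK p.2
    have h1 : eK (V (rK p.2)) = eK (rK p.2) := by
      rw [hV, E.erK p hp.1, hp.2.2]
    have h2 := congrArg rK h1
    rwa [E.reK, E.reK] at h2

end Pool.Agent.H303.RS
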